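import Pool.Agent.Helper20_Mackey.Hull

/-!
# Basic operations on Mackey functors
-/

set_option autoImplicit false
set_option linter.unusedSectionVars false

open MulAction Function

namespace Pool.Agent.Helper20_Mackey

open scoped Classical in
noncomputable instance {G : Type} [Group G] (X : FinGSet G) : Fintype X := Fintype.ofFinite _

variable {G : Type} [Group G] [Finite G]

noncomputable instance : Fintype G := Fintype.ofFinite _
noncomputable instance : Fintype (Subgroup G) := Fintype.ofFinite _

/-- the orbit `G/K` -/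
def orb (K : Subgroup G) : FinGSet G where
  carrier := G ⧸ K

/-- the coset `gK` -/
def pt (K : Subgroup G) (g : G) : orb K := (QuotientGroup.mk g : G ⧸ K)

lemma smul_pt (K : Subgroup G) (h g : G) : h • pt K g = pt K (h * g) := rfl

lemma exists_pt {K : Subgroup G} (q : orb K) : ∃ g, q = pt K g := by
  obtain ⟨g, hg⟩ := QuotientGroup.mk_surjective (s := K) q
  exact ⟨g, hg.symm⟩

lemma pt_eq_iff {K : Subgroup G} {g h : G} : pt K g = pt K h ↔ g⁻¹ * h ∈ K :=
  QuotientGroup.eq

lemma pt_mul_mem {K : Subgroup G} {g l : G} (hl : l ∈ K) : pt K (g * l) = pt K g := by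
  rw [pt_eq_iff]; simpa using hl

lemma stabilizer_pt (K : Subgroup G) (g : G) : stabilizer G (pt K g) = cj g K := by
  ext h
  rw [mem_stabilizer_iff, smul_pt, mem_cj, eq_comm, pt_eq_iff, mul_assoc]

lemma stabilizer_pt_one (K : Subgroup G) : stabilizer G (pt K 1) = K := by
  rw [stabilizer_pt, cj_one]

/-- `G/K → X`, `gK ↦ g x` -/
def ev {X : FinGSet G} (x : X) (K : Subgroup G) (h : K ≤ stabilizer G x) : orb K →[G] X where
  toFun q := Quotient.liftOn' q (fun g => g • x) (by
    intro a b hab
    rw [QuotientGroup.leftRel_apply] at hab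
    have h2 := h hab
    rw [mem_stabilizer_iff, mul_smul, inv_smul_eq_iff] at h2
    exact h2.symm)
  map_smul' g q := by
    obtain ⟨h, rfl⟩ := exists_pt q
    exact mul_smul g h x

lemma ev_pt {X : FinGSet G} (x : X) (K : Subgroup G) (h : K ≤ stabilizer G x) (g : G) :
    ev x K h (pt K g) = g • x := rfl

lemma hom_ext {X Y : FinGSet G} {f f' : X →[G] Y} (h : ∀ x, f x = f' x) : f = f' :=
  MulActionHom.ext h

lemma stab_le {X Y : FinGSet G} (f : X →[G] Y) (x : X) : stabilizer G x ≤ stabilizer G (f x) := by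
  intro g hg
  rw [mem_stabilizer_iff] at hg ⊢
  rw [← map_smul, hg]

lemma stab_eq {X Y : FinGSet G} {f : X →[G] Y} (hf : Injective f) (x : X) :
    stabilizer G (f x) = stabilizer G x := by
  apply le_antisymm _ (stab_le f x)
  intro g hg
  rw [mem_stabilizer_iff] at hg ⊢
  apply hf
  rw [map_smul, hg]

/-- a sub-`G`-set -/
def SubG (U : FinGSet G) (P : U → Prop) (hP : ∀ (g : G) (p : U), P p → P (g • p)) : FinGSet G where
  carrier := {p : U // P p}
  action :=
    { smul := fun g p => ⟨g • p.1, hP g p.1 p.2⟩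
      one_smul := fun p => Subtype.ext (one_smul G p.1)
      mul_smul := fun g h p => Subtype.ext (mul_smul g h p.1) }

/-- its inclusion -/
def SubG.incl (U : FinGSet G) (P : U → Prop) (hP : ∀ (g : G) (p : U), P p → P (g • p)) :
    SubG U P hP →[G] U where
  toFun p := p.1
  map_smul' _ _ := rfl

lemma SubG.incl_injective (U : FinGSet G) (P : U → Prop)
    (hP : ∀ (g : G) (p : U), P p → P (g • p)) : Injective (SubG.incl U P hP) :=
  fun _ _ h => Subtype.ext h

variable {O : TransferSystem G}

/-- maps to a pullback -/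
def Pullback.lift {W U V Y : FinGSet G} (f : U →[G] Y) (b : V →[G] Y) (p : W →[G] U)
    (q : W →[G] V) (h : ∀ w, f (p w) = b (q w)) : W →[G] Pullback f b where
  toFun w := ⟨(p w, q w), h w⟩
  map_smul' g w := Subtype.ext (Prod.ext (map_smul p g w) (map_smul q g w))

/-- points of a pullback -/
def Pullback.pnt {U V Y : FinGSet G} (f : U →[G] Y) (b : V →[G] Y) (p : U)
    (q : V) (h : f p = b q) : Pullback f b := ⟨(p, q), h⟩

lemma Pullback.lift_bijective {W U V Y : FinGSet G} {f : U →[G] Y} {b : V →[G] Y} {p : W →[G] U}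
    {q : W →[G] V} {h : ∀ w, f (p w) = b (q w)} (h1 : ∀ w w', p w = p w' → q w = q w' → w = w')
    (h2 : ∀ u v, f u = b v → ∃ w, p w = u ∧ q w = v) : Bijective (Pullback.lift f b p q h) := by
  constructor
  · intro w w' hw
    exact h1 w w' (congrArg (fun r : Pullback f b => r.1.1) hw)
      (congrArg (fun r : Pullback f b => r.1.2) hw)
  · intro r
    obtain ⟨w, hw1, hw2⟩ := h2 r.1.1 r.1.2 r.2
    exact ⟨w, Subtype.ext (Prod.ext hw1 hw2)⟩

lemma ev_admissible {X : FinGSet G} {x : X} {K : Subgroup G} (h : O.rel K (stabilizer G x)) :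
    Admissible O (ev x K (O.le _ _ h)) := by
  intro q
  obtain ⟨g, rfl⟩ := exists_pt q
  rw [stabilizer_pt, ev_pt, stabilizer_smul']
  exact rel_cj h

lemma admissible_comp {X Y Z : FinGSet G} {f : X →[G] Y} {h : Y →[G] Z} (hf : Admissible O f)
    (hh : Admissible O h) : Admissible O (h.comp f) :=
  fun x => O.trans _ _ _ (hf x) (hh (f x))

lemma admissible_of_injective {X Y : FinGSet G} {f : X →[G] Y} (hf : Injective f) :
    Admissible O f := by
  intro x
  rw [stab_eq hf]
  exact O.refl _

namespace Mackey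

variable (M : Mackey O)

/-- restriction -/
def pull {U X : FinGSet G} (a : U →[G] X) : M.obj X →ₗ[ℚ] M.obj U :=
  M.span a (MulActionHom.id G) (admissible_id O U)

/-- transfer -/
def push {U Y : FinGSet G} (f : U →[G] Y) (hf : Admissible O f) : M.obj U →ₗ[ℚ] M.obj Y :=
  M.span (MulActionHom.id G) f hf

lemma span_span {X U Y V Z : FinGSet G} (a : U →[G] X) (f : U →[G] Y) (hf : Admissible O f)
    (b : V →[G] Y) (h : V →[G] Z) (hh : Admissible O h) (m : M.obj X) :
    M.span b h hh (M.span a f hf m) =
      M.span (a.comp (Pullback.fst f b)) (h.comp (Pullback.snd f b))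
        (admissible_pullback O hf b hh) m :=
  LinearMap.congr_fun (M.span_comp a f hf b h hh) m

lemma span_congr {X U U' Y : FinGSet G} {a : U →[G] X} {f : U →[G] Y} {hf : Admissible O f}
    {a' : U' →[G] X} {f' : U' →[G] Y} {hf' : Admissible O f'} (e : U →[G] U')
    (he : Bijective e) (ha : ∀ u : U, a' (e u) = a u) (hff : ∀ u : U, f' (e u) = f u) :
    M.span a f hf = M.span a' f' hf' :=
  M.span_iso a f hf a' f' hf' (Equiv.ofBijective e he) (fun g u => map_smul e g u) ha hff

lemma pull_id {X : FinGSet G} (m : M.obj X) : M.pull (MulActionHom.id G) m = m :=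
  LinearMap.congr_fun (M.span_id X) m

lemma span_eq {X U Y : FinGSet G} (a : U →[G] X) (f : U →[G] Y) (hf : Admissible O f)
    (m : M.obj X) : M.span a f hf m = M.push f hf (M.pull a m) := by
  unfold push pull
  rw [span_span]
  refine LinearMap.congr_fun (M.span_congr (e := Pullback.lift _ _ (MulActionHom.id G)
    (MulActionHom.id G) (fun u => rfl)) (Pullback.lift_bijective (fun u u' h _ => h)
      (fun u v h => ⟨u, rfl, h⟩)) (fun u => rfl) (fun u => rfl)) m

lemma pull_pull {U V X : FinGSet G} (a : V →[G] X) (b : U →[G] V) (m : M.obj X) :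
    M.pull b (M.pull a m) = M.pull (a.comp b) m := by
  unfold pull
  rw [span_span]
  refine (LinearMap.congr_fun (M.span_congr (e := Pullback.lift _ _ b
    (MulActionHom.id G) (fun u => rfl)) (Pullback.lift_bijective (fun u u' _ h => h)
      (fun u v h => ⟨v, h.symm, rfl⟩)) (fun u => rfl) (fun u => rfl)) m).symm

lemma push_push {U V X : FinGSet G} (a : V →[G] X) (ha : Admissible O a) (b : U →[G] V)
    (hb : Admissible O b) (m : M.obj U) :
    M.push a ha (M.push b hb m) = M.push (a.comp b) (admissible_comp hb ha) m := by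
  unfold push
  rw [span_span]
  refine (LinearMap.congr_fun (M.span_congr (e := Pullback.lift _ _ (MulActionHom.id G)
    b (fun u => rfl)) (Pullback.lift_bijective (fun u u' h _ => h)
      (fun u v h => ⟨u, rfl, h⟩)) (fun u => rfl) (fun u => rfl)) m).symm

lemma pull_span {X U Y V : FinGSet G} (a : U →[G] X) (f : U →[G] Y) (hf : Admissible O f)
    (b : V →[G] Y) (m : M.obj X) :
    M.pull b (M.span a f hf m) =
      M.span (a.comp (Pullback.fst f b)) (Pullback.snd f b)
        (admissible_pullback O hf b (admissible_id O V)) m := by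
  unfold pull
  rw [span_span]
  rfl

lemma push_span {X U Y Z : FinGSet G} (a : U →[G] X) (f : U →[G] Y) (hf : Admissible O f)
    (h : Y →[G] Z) (hh : Admissible O h) (m : M.obj X) :
    M.push h hh (M.span a f hf m) = M.span a (h.comp f) (admissible_comp hf hh) m := by
  rw [span_eq, span_eq, push_push]

lemma span_pull {X U Y Z : FinGSet G} (a : U →[G] X) (f : U →[G] Y) (hf : Admissible O f)
    (h : X →[G] Z) (m : M.obj Z) :
    M.span a f hf (M.pull h m) = M.span (h.comp a) f hf m := by
  rw [span_eq, span_eq, pull_pull]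

/-- decomposition of a span along a decomposition of its middle object -/
lemma span_decomp {X U Y : FinGSet G} {I : Type} [Fintype I] (V : I → FinGSet G)
    (ι : ∀ i, V i →[G] U) (hb : Bijective (fun p : (Σ i, V i) => ι p.1 p.2)) (a : U →[G] X)
    (f : U →[G] Y) (hf : Admissible O f) (hf' : ∀ i, Admissible O (f.comp (ι i))) (m : M.obj X) :
    M.span a f hf m = ∑ i, M.span (a.comp (ι i)) (f.comp (ι i)) (hf' i) m := by
  have h1 := M.span_sum V (fun i => a.comp (ι i)) (fun i => f.comp (ι i)) hf'
  have h2 : M.span (Coprod.desc fun i => a.comp (ι i)) (Coprod.desc fun i => f.comp (ι i))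
      (admissible_desc O hf') = M.span a f hf :=
    M.span_congr (e := (Coprod.desc ι : Coprod V →[G] U)) hb (fun u => rfl) (fun u => rfl)
  rw [← h2, h1, LinearMap.sum_apply]

/-- total version of the restriction along `G/K → X` -/
noncomputable def dn {X : FinGSet G} (x : X) (K : Subgroup G) : M.obj X →ₗ[ℚ] M.obj (orb K) :=
  open Classical in if h : K ≤ stabilizer G x then M.pull (ev x K h) else 0

/-- total version of the transfer along `G/K → X` -/
noncomputable def up {X : FinGSet G} (x : X) (K : Subgroup G) : M.obj (orb K) →ₗ[ℚ] M.obj X :=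
  open Classical in
  if h : O.rel K (stabilizer G x) then M.push (ev x K (O.le _ _ h)) (ev_admissible h) else 0

lemma dn_eq {X : FinGSet G} {x : X} {K : Subgroup G} (h : K ≤ stabilizer G x) :
    M.dn x K = M.pull (ev x K h) := by unfold dn; rw [dif_pos h]

lemma up_eq {X : FinGSet G} {x : X} {K : Subgroup G} (h : O.rel K (stabilizer G x)) :
    M.up x K = M.push (ev x K (O.le _ _ h)) (ev_admissible h) := by unfold up; rw [dif_pos h]

lemma up_eq_zero {X : FinGSet G} {x : X} {K : Subgroup G} (h : ¬ O.rel K (stabilizer G x)) :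
    M.up x K = 0 := by unfold up; rw [dif_neg h]

lemma dn_dn {X : FinGSet G} {x : X} {K H : Subgroup G} {g : G} (hH : H ≤ stabilizer G x)
    (h : K ≤ cj g H) (m : M.obj X) : M.dn (pt H g) K (M.dn x H m) = M.dn (g • x) K m := by
  have h1 : K ≤ stabilizer G (pt H g) := by rwa [stabilizer_pt]
  have h2 : K ≤ stabilizer G (g • x) := by
    rw [stabilizer_smul']
    exact h.trans (cj_le_cj hH)
  rw [M.dn_eq h1, M.dn_eq hH, M.dn_eq h2, pull_pull]
  congr 1
  congr 1
  apply hom_ext
  intro q
  obtain ⟨k, rfl⟩ := exists_pt q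
  change ev x H hH (k • pt H g) = k • g • x
  rw [smul_pt, ev_pt, mul_smul]

lemma dn_pull {X U : FinGSet G} (a : U →[G] X) {u : U} {K : Subgroup G}
    (h : K ≤ stabilizer G u) (m : M.obj X) : M.dn u K (M.pull a m) = M.dn (a u) K m := by
  rw [M.dn_eq h, M.dn_eq (h.trans (stab_le a u)), pull_pull]
  congr 1
  congr 1
  apply hom_ext
  intro q
  obtain ⟨k, rfl⟩ := exists_pt q
  exact map_smul a k u

lemma dn_self {K : Subgroup G} (m : M.obj (orb K)) : M.dn (pt K 1) K m = m := by
  have h : K ≤ stabilizer G (pt K 1) := by rw [stabilizer_pt_one]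
  rw [M.dn_eq h]
  conv_rhs => rw [← M.pull_id m]
  congr 1
  congr 1
  apply hom_ext
  intro q
  obtain ⟨k, rfl⟩ := exists_pt q
  rw [ev_pt, smul_pt, mul_one]
  rfl

lemma up_dn_cj {X : FinGSet G} (x : X) (L : Subgroup G) (g : G) (m : M.obj (orb L)) :
    M.up (g • x) (cj g L) (M.dn (pt L g) (cj g L) m) = M.up x L m := by
  by_cases h : O.rel L (stabilizer G x)
  · have h1 : O.rel (cj g L) (stabilizer G (g • x)) := by
      rw [stabilizer_smul']; exact rel_cj h
    have h2 : cj g L ≤ stabilizer G (pt L g) := by rw [stabilizer_pt]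
    rw [M.up_eq h, M.up_eq h1, M.dn_eq h2, ← span_eq]
    refine LinearMap.congr_fun (M.span_congr (e := ev (pt L g) (cj g L) h2) ?_ (fun u => rfl)
      ?_) m
    · constructor
      · intro q q' hq
        obtain ⟨k, rfl⟩ := exists_pt q
        obtain ⟨k', rfl⟩ := exists_pt q'
        rw [ev_pt, ev_pt, smul_pt, smul_pt, pt_eq_iff] at hq
        rw [pt_eq_iff, mem_cj]
        simpa [mul_assoc] using hq
      · intro q
        obtain ⟨k, rfl⟩ := exists_pt q
        exact ⟨pt _ (k * g⁻¹), by rw [ev_pt, smul_pt]; simp⟩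
    · intro q
      obtain ⟨k, rfl⟩ := exists_pt q
      rw [ev_pt, ev_pt, smul_pt, ev_pt, mul_smul]
  · have h1 : ¬ O.rel (cj g L) (stabilizer G (g • x)) := by
      rw [stabilizer_smul', rel_cj_iff]; exact h
    rw [M.up_eq_zero h, M.up_eq_zero h1]
    rfl

end Mackey

/-- a sum over `G/L` as a sum over `G` -/
lemma sum_orb {A : Type*} [AddCommGroup A] (L : Subgroup G) (φ : orb L → A) :
    (Nat.card L) • ∑ q : orb L, φ q = ∑ g : G, φ (pt L g) := by
  classical
  rw [← Finset.sum_fiberwise (s := (Finset.univ : Finset G)) (g := fun g => pt L g)]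
  rw [Finset.smul_sum]
  apply Finset.sum_congr rfl
  intro q _
  obtain ⟨k, rfl⟩ := exists_pt q
  rw [Finset.sum_congr rfl (g := fun _ => φ (pt L k))]
  · rw [Finset.sum_const]
    congr 1
    rw [← Fintype.card_subtype, ← Nat.card_eq_fintype_card]
    refine Nat.card_congr
      { toFun := fun l => ⟨k * l.1, pt_mul_mem l.2⟩
        invFun := fun i => ⟨k⁻¹ * i.1, pt_eq_iff.1 i.2.symm⟩
        left_inv := fun l => Subtype.ext (by simp)
        right_inv := fun i => Subtype.ext (by simp) }
  · intro g hg
    rw [Finset.mem_filter] at hg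
    rw [hg.2]

end Pool.Agent.Helper20_Mackey
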