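import Pool.Agent.Helper20_Mackey.CMod

/-!
# Brauer quotients
-/

set_option autoImplicit false
set_option linter.unusedSectionVars false

open MulAction Function

namespace Pool.Agent.Helper20_Mackey

variable {G : Type} [Group G] [Finite G] {O : TransferSystem G}

namespace Mackey

variable (M : Mackey O)

/-- the trace submodule -/
def Tr (K : Subgroup G) : Submodule ℚ (M.obj (orb K)) :=
  Submodule.span ℚ {v | ∃ (U : FinGSet G) (f : U →[G] orb K) (hf : Admissible O f) (m : M.obj U),
    (∀ u, f u = pt K 1 → ¬ K ≤ stabilizer G u) ∧ v = M.push f hf m}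

/-- the Brauer quotient -/
abbrev Br (K : Subgroup G) : Type := M.obj (orb K) ⧸ M.Tr K

/-- the class in the Brauer quotient of the restriction to a point -/
noncomputable def val {X : FinGSet G} (x : X) (K : Subgroup G) : M.obj X →ₗ[ℚ] M.Br K :=
  (M.Tr K).mkQ ∘ₗ M.dn x K

lemma val_apply {X : FinGSet G} (x : X) (K : Subgroup G) (m : M.obj X) :
    M.val x K m = Submodule.Quotient.mk (M.dn x K m) := rfl

lemma val_self {K : Subgroup G} (m : M.obj (orb K)) :
    M.val (pt K 1) K m = Submodule.Quotient.mk m := by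
  rw [val_apply, dn_self]

open scoped Classical in
lemma mk_span {X U : FinGSet G} {K : Subgroup G} (a : U →[G] X) (f : U →[G] orb K)
    (hf : Admissible O f) (m : M.obj X) :
    (Submodule.Quotient.mk (M.span a f hf m) : M.Br K) =
      ∑ u : U, if f u = pt K 1 ∧ K ≤ stabilizer G u then M.val (a u) K m else 0 := by
  let P : U → Prop := fun u => f u = pt K 1 ∧ K ≤ stabilizer G u
  have hR : ∀ (g : G) (p : U), (∀ k : G, ¬ P (k • p)) → ∀ k : G, ¬ P (k • g • p) := by
    intro g p hp k
    rw [← mul_smul]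
    exact hp (k * g)
  let R : FinGSet G := SubG U (fun p => ∀ g : G, ¬ P (g • p)) hR
  let V : Option {u : U // P u} → FinGSet G := fun i => i.elim R (fun _ => orb K)
  let incl : R →[G] U := SubG.incl U _ hR
  have hincl : Injective incl := SubG.incl_injective U _ hR
  let ι : ∀ i, V i →[G] U := fun i =>
    match i with
    | none => incl
    | some u => ev u.1 K u.2.2
  have hfev : ∀ u : {u : U // P u}, f.comp (ev u.1 K u.2.2) = MulActionHom.id G := by
    intro u
    apply hom_ext
    intro q
    obtain ⟨k, rfl⟩ := exists_pt q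
    change f (k • u.1) = pt K k
    rw [map_smul, u.2.1, smul_pt, mul_one]
  have hf' : ∀ i, Admissible O (f.comp (ι i)) := by
    intro i
    match i with
    | none => exact admissible_comp (admissible_of_injective hincl) hf
    | some u =>
      change Admissible O (f.comp (ev u.1 K u.2.2))
      rw [hfev]
      exact admissible_id O _
  have hb : Bijective (fun p : (Σ i, V i) => ι p.1 p.2) := by
    constructor
    · rintro ⟨i, q⟩ ⟨i', q'⟩ h
      match i, i', q, q', h with
      | none, none, q, q', h =>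
        have h' : q = q' := hincl h
        rw [h']
      | none, some u', q, q', h =>
        exfalso
        obtain ⟨k, rfl⟩ := exists_pt (K := K) q'
        have h' : q.1 = k • u'.1 := h
        have h2 := q.2 k⁻¹
        rw [h', inv_smul_smul] at h2
        exact h2 u'.2
      | some u, none, q, q', h =>
        exfalso
        obtain ⟨k, rfl⟩ := exists_pt (K := K) q
        have h' : k • u.1 = q'.1 := h
        have h2 := q'.2 k⁻¹
        rw [← h', inv_smul_smul] at h2
        exact h2 u.2
      | some u, some u', q, q', h =>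
        obtain ⟨k, rfl⟩ := exists_pt (K := K) q
        obtain ⟨k', rfl⟩ := exists_pt (K := K) q'
        have h' : k • u.1 = k' • u'.1 := h
        have h2 := congrArg f h'
        rw [map_smul, map_smul, u.2.1, u'.2.1, smul_pt, smul_pt, mul_one, mul_one,
          pt_eq_iff] at h2
        have h3 : u = u' := by
          apply Subtype.ext
          have h4 := u'.2.2 h2
          rw [mem_stabilizer_iff, mul_smul, inv_smul_eq_iff, ← h'] at h4
          exact MulAction.injective k h4
        subst h3
        have h5 : pt K k = pt K k' := pt_eq_iff.2 h2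
        rw [h5]
    · intro u
      by_cases h : ∃ g : G, P (g • u)
      · obtain ⟨g, hg⟩ := h
        refine ⟨⟨some ⟨g • u, hg⟩, pt K g⁻¹⟩, ?_⟩
        exact inv_smul_smul g u
      · push Not at h
        exact ⟨⟨none, ⟨u, h⟩⟩, rfl⟩
  have key := M.span_decomp V ι hb a f hf hf' m
  rw [key, Fintype.sum_option]
  have h0 : (Submodule.Quotient.mk (M.span (a.comp (ι none)) (f.comp (ι none)) (hf' none) m) :
      M.Br K) = 0 := by
    rw [Submodule.Quotient.mk_eq_zero, span_eq]
    apply Submodule.subset_span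
    refine ⟨R, f.comp incl, hf' none, _, ?_, rfl⟩
    intro p hp hK
    apply p.2 1
    rw [one_smul]
    refine ⟨hp, ?_⟩
    rwa [← stab_eq hincl p] at hK
  rw [Submodule.Quotient.mk_add, h0, zero_add, ← Submodule.mkQ_apply, map_sum,
    ← Finset.sum_filter]
  rw [Finset.sum_subtype (p := P) (F := inferInstance) _ (by intro u; simp [P])]
  apply Finset.sum_congr rfl
  intro u _
  rw [Submodule.mkQ_apply, val_apply]
  congr 1
  have h1 : M.span (a.comp (ι (some u))) (f.comp (ι (some u))) (hf' (some u)) m =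
      M.pull (a.comp (ev u.1 K u.2.2)) m := by
    change _ = M.span _ _ _ m
    have : f.comp (ι (some u)) = MulActionHom.id G := hfev u
    congr 1
    congr 1
  rw [h1, ← pull_pull, ← M.dn_eq, dn_pull _ _ u.2.2]

open scoped Classical in
/-- the basic formula: the value at a point of the image under a span -/
lemma val_span {X U Y : FinGSet G} {K : Subgroup G} (a : U →[G] X) (f : U →[G] Y)
    (hf : Admissible O f) (m : M.obj X) (y : Y) (hy : K ≤ stabilizer G y) :
    M.val y K (M.span a f hf m) =
      ∑ u : U, if f u = y ∧ K ≤ stabilizer G u then M.val (a u) K m else 0 := by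
  rw [val_apply, M.dn_eq hy, pull_span, mk_span, ← Finset.sum_filter, ← Finset.sum_filter]
  refine Finset.sum_bij (fun p _ => p.1.1) ?_ ?_ ?_ ?_
  · intro p hp
    rw [Finset.mem_filter] at hp ⊢
    obtain ⟨-, hp1, hp2⟩ := hp
    refine ⟨Finset.mem_univ _, ?_, ?_⟩
    · rw [p.2]
      have : p.1.2 = pt K 1 := hp1
      rw [this, ev_pt, one_smul]
    · rw [stabilizer_pullback] at hp2
      exact hp2.trans inf_le_left
  · intro p hp p' hp' h
    rw [Finset.mem_filter] at hp hp'
    have h1 : p.1.2 = pt K 1 := hp.2.1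
    have h2 : p'.1.2 = pt K 1 := hp'.2.1
    exact Subtype.ext (Prod.ext h (h1.trans h2.symm))
  · intro u hu
    rw [Finset.mem_filter] at hu
    obtain ⟨-, hu1, hu2⟩ := hu
    refine ⟨Pullback.pnt _ _ u (pt K 1) (by rw [hu1, ev_pt, one_smul]), ?_, rfl⟩
    rw [Finset.mem_filter]
    refine ⟨Finset.mem_univ _, rfl, ?_⟩
    rw [stabilizer_pullback]
    exact le_inf hu2 (stabilizer_pt_one K).ge
  · intro p _
    rfl

lemma Tr_le_comap {K H : Subgroup G} {x : G} (h : Mor O K H x) :
    M.Tr H ≤ (M.Tr K).comap (M.dn (pt H x) K) := by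
  unfold Tr
  rw [Submodule.span_le]
  rintro v ⟨U, f, hf, m, h0, rfl⟩
  have hK : K ≤ stabilizer G (pt H x) := by rw [stabilizer_pt]; exact h.le
  change M.dn (pt H x) K (M.push f hf m) ∈ M.Tr K
  rw [← Submodule.Quotient.mk_eq_zero, ← val_apply]
  unfold push
  rw [M.val_span _ _ _ _ _ hK]
  apply Finset.sum_eq_zero
  intro u _
  rw [if_neg]
  rintro ⟨hu1, hu2⟩
  have h1 : O.rel (stabilizer G u) (cj x H) := by
    have := hf u
    rwa [hu1, stabilizer_pt] at this
  have h2 : Dense O K (cj x H) := by
    have := Dense.cj (g := x) h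
    rwa [cj_cj_inv] at this
  have h3 := h2.2 _ h1 hu2
  apply h0 (x⁻¹ • u)
  · rw [map_smul, hu1, smul_pt, inv_mul_cancel]
  · rw [stabilizer_smul', h3, cj_inv_cj]

/-- the restriction maps of the Brauer quotients -/
noncomputable def brRes (K H : Subgroup G) (x : G) : M.Br H →ₗ[ℚ] M.Br K :=
  open Classical in
  if h : Mor O K H x then (M.Tr H).mapQ (M.Tr K) (M.dn (pt H x) K) (M.Tr_le_comap h) else 0

lemma brRes_mk {K H : Subgroup G} {x : G} (h : Mor O K H x) (m : M.obj (orb H)) :
    M.brRes K H x (Submodule.Quotient.mk m) = M.val (pt H x) K m := by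
  unfold brRes; rw [dif_pos h]; rfl

lemma brRes_val {X : FinGSet G} {K H : Subgroup G} {x : G} (h : Mor O K H x) (y : X)
    (hy : H ≤ stabilizer G y) (m : M.obj X) :
    M.brRes K H x (M.val y H m) = M.val (x • y) K m := by
  rw [val_apply, M.brRes_mk h, val_apply, val_apply, M.dn_dn hy h.le]

end Mackey

/-- the functor of Brauer quotients -/
noncomputable def FF (M : Mackey O) : CMod O where
  obj K := M.Br K
  res K H x := M.brRes K H x
  res_self K l hl n := by
    obtain ⟨m, rfl⟩ := Submodule.Quotient.mk_surjective _ n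
    rw [M.brRes_mk (mor_self hl)]
    have : pt K l = pt K 1 := by rw [pt_eq_iff]; simpa using K.inv_mem hl
    rw [this, M.val_self]
  res_comp K H J x y hx hy n := by
    obtain ⟨m, rfl⟩ := Submodule.Quotient.mk_surjective _ n
    rw [M.brRes_mk hy, M.brRes_mk (hx.comp hy), M.brRes_val hx, smul_pt]
    rw [stabilizer_pt]
    exact hy.le

lemma FF_res (M : Mackey O) (K H : Subgroup G) (x : G) : (FF M).res K H x = M.brRes K H x := rfl

/-- action on morphisms -/
lemma Mackey.Hom.app_span {M N : Mackey O} (φ : M.Hom N) {X U Y : FinGSet G} (a : U →[G] X)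
    (f : U →[G] Y) (hf : Admissible O f) (m : M.obj X) :
    φ.app Y (M.span a f hf m) = N.span a f hf (φ.app X m) :=
  LinearMap.congr_fun (φ.naturality a f hf) m

lemma Mackey.Hom.app_pull {M N : Mackey O} (φ : M.Hom N) {X U : FinGSet G} (a : U →[G] X)
    (m : M.obj X) : φ.app U (M.pull a m) = N.pull a (φ.app X m) := φ.app_span _ _ _ _

lemma Mackey.Hom.app_push {M N : Mackey O} (φ : M.Hom N) {U Y : FinGSet G}
    (f : U →[G] Y) (hf : Admissible O f) (m : M.obj U) :
    φ.app Y (M.push f hf m) = N.push f hf (φ.app U m) := φ.app_span _ _ _ _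

lemma Mackey.Hom.app_dn {M N : Mackey O} (φ : M.Hom N) {X : FinGSet G} (x : X)
    (K : Subgroup G) (m : M.obj X) : φ.app (orb K) (M.dn x K m) = N.dn x K (φ.app X m) := by
  by_cases h : K ≤ stabilizer G x
  · rw [M.dn_eq h, N.dn_eq h, φ.app_pull]
  · unfold Mackey.dn
    rw [dif_neg h, dif_neg h]
    simp

lemma Mackey.Hom.app_up {M N : Mackey O} (φ : M.Hom N) {X : FinGSet G} (x : X)
    (K : Subgroup G) (m : M.obj (orb K)) : φ.app X (M.up x K m) = N.up x K (φ.app (orb K) m) := by
  by_cases h : O.rel K (stabilizer G x)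
  · rw [M.up_eq h, N.up_eq h, φ.app_push]
  · rw [M.up_eq_zero h, N.up_eq_zero h]
    simp

lemma Mackey.Hom.Tr_le {M N : Mackey O} (φ : M.Hom N) (K : Subgroup G) :
    M.Tr K ≤ (N.Tr K).comap (φ.app (orb K)) := by
  unfold Mackey.Tr
  rw [Submodule.span_le]
  rintro v ⟨U, f, hf, m, h0, rfl⟩
  change φ.app (orb K) (M.push f hf m) ∈ N.Tr K
  rw [φ.app_push]
  exact Submodule.subset_span ⟨U, f, hf, _, h0, rfl⟩

noncomputable def brMap {M N : Mackey O} (φ : M.Hom N) (K : Subgroup G) :
    M.Br K →ₗ[ℚ] N.Br K := (M.Tr K).mapQ (N.Tr K) (φ.app (orb K)) (φ.Tr_le K)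

lemma brMap_val {M N : Mackey O} (φ : M.Hom N) (K : Subgroup G) {X : FinGSet G} (x : X)
    (m : M.obj X) : brMap φ K (M.val x K m) = N.val x K (φ.app X m) := by
  rw [Mackey.val_apply, Mackey.val_apply, ← φ.app_dn]
  rfl

lemma brMap_mk {M N : Mackey O} (φ : M.Hom N) (K : Subgroup G) 
    (m : M.obj (orb K)) : brMap φ K (Submodule.Quotient.mk m) =
      Submodule.Quotient.mk (φ.app (orb K) m) := rfl

lemma brMap_brRes {M N : Mackey O} (φ : M.Hom N) {K H : Subgroup G} {x : G} (h : Mor O K H x)
    (n : M.Br H) : brMap φ K (M.brRes K H x n) = N.brRes K H x (brMap φ H n) := by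
  obtain ⟨m, rfl⟩ := Submodule.Quotient.mk_surjective _ n
  rw [M.brRes_mk h, brMap_val, brMap_mk, N.brRes_mk h]

noncomputable def FFmap {M N : Mackey O} (φ : M.Hom N) : (FF M).Hom (FF N) where
  app K := brMap φ K
  nat _ _ _ h n := brMap_brRes φ h n

end Pool.Agent.Helper20_Mackey
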