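import Pool.Agent.Helper20_Mackey.Basic

/-!
# Modules over the category of dense maps
-/

set_option autoImplicit false
set_option linter.unusedSectionVars false

open MulAction Function

namespace Pool.Agent.Helper20_Mackey

variable {G : Type} [Group G] [Finite G]

/-- modules over the category of dense maps between orbits -/
structure CMod (O : TransferSystem G) where
  obj : Subgroup G → Type
  [addCommGroup : ∀ K, AddCommGroup (obj K)]
  [module : ∀ K, Module ℚ (obj K)]
  res : ∀ (K H : Subgroup G) (_ : G), obj H →ₗ[ℚ] obj K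
  res_self : ∀ (K : Subgroup G) (l : G) (_ : l ∈ K) (n : obj K), res K K l n = n
  res_comp : ∀ (K H J : Subgroup G) (x y : G), Mor O K H x → Mor O H J y → ∀ n,
    res K H x (res H J y n) = res K J (x * y) n

attribute [instance] CMod.addCommGroup CMod.module

variable {O : TransferSystem G}

lemma mor_self {K : Subgroup G} {l : G} (hl : l ∈ K) : Mor O K K l := by
  unfold Mor; rw [cj_of_mem (K.inv_mem hl)]; exact Dense.refl K

lemma Mor.le {K H : Subgroup G} {x : G} (h : Mor O K H x) : K ≤ cj x H := by
  have := cj_le_cj (g := x) h.1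
  rwa [cj_cj_inv] at this

lemma Mor.card_le {K H : Subgroup G} {x : G} (h : Mor O K H x) : Nat.card K ≤ Nat.card H := by
  rw [← card_cj x H]
  exact Subgroup.card_le_of_le h.le

lemma Mor.eq_of_card {K H : Subgroup G} {x : G} (h : Mor O K H x)
    (hc : Nat.card H ≤ Nat.card K) : K = cj x H := by
  apply Dense.eq_of_card h.le
  rwa [card_cj]

lemma mor_cj' (g : G) (K : Subgroup G) : Mor O K (cj g K) g⁻¹ := by
  unfold Mor; rw [inv_inv]; exact Dense.refl _

namespace CMod

variable (N : CMod O)

lemma res_mul_mem {K H : Subgroup G} {x l : G} (h : Mor O K H x) (hl : l ∈ H) (n : N.obj H) :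
    N.res K H (x * l) n = N.res K H x n := by
  rw [← N.res_comp K H H x l h (mor_self hl), N.res_self H l hl]

lemma res_one (K : Subgroup G) (n : N.obj K) : N.res K K 1 n = n := N.res_self K 1 K.one_mem n

/-- morphisms -/
structure Hom (M N : CMod O) where
  app : ∀ K, M.obj K →ₗ[ℚ] N.obj K
  nat : ∀ (K H : Subgroup G) (x : G), Mor O K H x → ∀ n,
    app K (M.res K H x n) = N.res K H x (app H n)

/-- composition -/
def Hom.comp {A B C : CMod O} (g : B.Hom C) (f : A.Hom B) : A.Hom C where
  app K := g.app K ∘ₗ f.app K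
  nat K H x h n := by
    rw [LinearMap.comp_apply, f.nat K H x h, g.nat K H x h]; rfl

def IsProjective (P : CMod O) : Prop :=
  ∀ (M N : CMod O) (p : M.Hom N), (∀ X, Function.Surjective (p.app X)) →
    ∀ h : P.Hom N, ∃ l : P.Hom M, ∀ X m, p.app X (l.app X m) = h.app X m

def IsShortExact {K P M : CMod O} (i : K.Hom P) (p : P.Hom M) : Prop :=
  ∀ X, Function.Injective (i.app X) ∧ Function.Surjective (p.app X) ∧
    ∀ m, p.app X m = 0 ↔ ∃ k, i.app X k = m

def PdLE : ℕ → CMod O → Prop
  | 0, M => M.IsProjective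
  | n + 1, M => ∃ (P K : CMod O) (i : K.Hom P) (p : P.Hom M), P.IsProjective ∧
      IsShortExact i p ∧ PdLE n K

/-- a bijective morphism transports projective dimension -/
lemma PdLE.of_iso {n : ℕ} {A B : CMod O} (e : A.Hom B) (he : ∀ K, Bijective (e.app K))
    (h : A.PdLE n) : B.PdLE n := by
  have hinv : ∃ e' : B.Hom A, ∀ K, (∀ m, e.app K (e'.app K m) = m) ∧
      ∀ m, e'.app K (e.app K m) = m := by
    refine ⟨{ app := fun K => (LinearEquiv.ofBijective (e.app K) (he K)).symm.toLinearMap
              nat := ?_ }, fun K => ⟨fun m => ?_, fun m => ?_⟩⟩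
    · intro K H x hx m
      apply (he K).1
      rw [e.nat K H x hx]
      have h1 : ∀ (K : Subgroup G) (m : B.obj K),
          e.app K ((LinearEquiv.ofBijective (e.app K) (he K)).symm m) = m :=
        fun K m => LinearEquiv.apply_symm_apply (LinearEquiv.ofBijective (e.app K) (he K)) m
      exact (h1 K _).trans (congrArg _ (h1 H m).symm)
    · exact LinearEquiv.apply_symm_apply (LinearEquiv.ofBijective (e.app K) (he K)) m
    · exact LinearEquiv.symm_apply_apply (LinearEquiv.ofBijective (e.app K) (he K)) m
  obtain ⟨e', he'⟩ := hinv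
  cases n with
  | zero =>
    intro M N p hp h'
    obtain ⟨l, hl⟩ := h M N p hp (h'.comp e)
    refine ⟨l.comp e', fun X m => ?_⟩
    change p.app X (l.app X (e'.app X m)) = _
    rw [hl]
    change h'.app X (e.app X (e'.app X m)) = _
    rw [(he' X).1]
  | succ n =>
    obtain ⟨P, K, i, p, hP, hs, hK⟩ := h
    refine ⟨P, K, i, e.comp p, hP, fun X => ⟨(hs X).1, (he X).2.comp (hs X).2.1, fun m => ?_⟩, hK⟩
    rw [← (hs X).2.2 m]
    change e.app X (p.app X m) = 0 ↔ _
    constructor
    · intro h0
      apply (he X).1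
      rw [h0, map_zero]
    · intro h0
      rw [h0, map_zero]

end CMod

end Pool.Agent.Helper20_Mackey
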