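import Mathlib

/-!
# Rational incomplete Mackey functors and their global dimension (problem MP_093cae_al)

`G` is a finite group throughout.
-/

set_option autoImplicit false

open MulAction

namespace Pool.Agent.Helper20_Mackey

/-- A transfer system for `G`: a partial order on the subgroups of `G`, refining inclusion, closed
under conjugation and restriction. (Antisymmetry follows from `le`.) -/
structure TransferSystem (G : Type) [Group G] where
  /-- `rel K H` means `K → H` -/
  rel : Subgroup G → Subgroup G → Prop
  refl : ∀ H, rel H H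
  trans : ∀ K L H, rel K L → rel L H → rel K H
  le : ∀ K H, rel K H → K ≤ H
  conj : ∀ (g : G) (K H : Subgroup G), rel K H →
    rel (K.map (MulAut.conj g).toMonoidHom) (H.map (MulAut.conj g).toMonoidHom)
  inter : ∀ K H L, rel K H → L ≤ H → rel (K ⊓ L) L

variable {G : Type} [Group G]

/-- Finite `G`-sets. -/
structure FinGSet (G : Type) [Group G] where
  /-- the underlying set -/
  carrier : Type
  [finite : Finite carrier]
  [action : MulAction G carrier]

instance : CoeSort (FinGSet G) Type := ⟨FinGSet.carrier⟩

attribute [instance] FinGSet.finite FinGSet.action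

/-- A `G`-map `f : U → Y` is `𝒪`-admissible if `Stab(u) → Stab(f(u))` in `𝒪` for all `u`. -/
def Admissible (O : TransferSystem G) {U Y : FinGSet G} (f : U →[G] Y) : Prop :=
  ∀ u : U, O.rel (stabilizer G u) (stabilizer G (f u))

/-- The underlying set `U ×_Y V` of the pullback of `f : U → Y` and `b : V → Y`. -/
def PullbackSet {U V Y : FinGSet G} (f : U →[G] Y) (b : V →[G] Y) : Type :=
  {p : U × V // f p.1 = b p.2}

lemma pullback_smul_mem {U V Y : FinGSet G} (f : U →[G] Y) (b : V →[G] Y) (g : G)
    (p : PullbackSet f b) : f (g • p.1.1) = b (g • p.1.2) := by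
  rw [map_smul, map_smul, p.2]

/-- The diagonal action on the pullback. -/
instance {U V Y : FinGSet G} (f : U →[G] Y) (b : V →[G] Y) : SMul G (PullbackSet f b) :=
  ⟨fun g p => ⟨(g • p.1.1, g • p.1.2), pullback_smul_mem f b g p⟩⟩

lemma pullback_one_smul {U V Y : FinGSet G} (f : U →[G] Y) (b : V →[G] Y)
    (p : PullbackSet f b) : (1 : G) • p = p :=
  Subtype.ext (Prod.ext (one_smul G p.1.1) (one_smul G p.1.2))

lemma pullback_mul_smul {U V Y : FinGSet G} (f : U →[G] Y) (b : V →[G] Y) (g h : G)
    (p : PullbackSet f b) : (g * h) • p = g • h • p :=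
  Subtype.ext (Prod.ext (mul_smul g h p.1.1) (mul_smul g h p.1.2))

instance {U V Y : FinGSet G} (f : U →[G] Y) (b : V →[G] Y) : MulAction G (PullbackSet f b) where
  one_smul := pullback_one_smul f b
  mul_smul := pullback_mul_smul f b

instance {U V Y : FinGSet G} (f : U →[G] Y) (b : V →[G] Y) : Finite (PullbackSet f b) :=
  Subtype.finite

/-- The pullback of `f : U → Y` and `b : V → Y`. -/
def Pullback {U V Y : FinGSet G} (f : U →[G] Y) (b : V →[G] Y) : FinGSet G where
  carrier := PullbackSet f b

/-- The first projection of the pullback. -/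
def Pullback.fst {U V Y : FinGSet G} (f : U →[G] Y) (b : V →[G] Y) : Pullback f b →[G] U where
  toFun p := p.1.1
  map_smul' _ _ := rfl

/-- The second projection of the pullback. -/
def Pullback.snd {U V Y : FinGSet G} (f : U →[G] Y) (b : V →[G] Y) : Pullback f b →[G] V where
  toFun p := p.1.2
  map_smul' _ _ := rfl

/-- The disjoint union of a finite family of finite `G`-sets. -/
def Coprod {I : Type} [Fintype I] (U : I → FinGSet G) : FinGSet G where
  carrier := Σ i, U i

/-- The `G`-map out of a disjoint union. -/
def Coprod.desc {I : Type} [Fintype I] {U : I → FinGSet G} {X : FinGSet G}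
    (a : ∀ i, U i →[G] X) : Coprod U →[G] X where
  toFun p := a p.1 p.2
  map_smul' g p := map_smul (a p.1) g p.2

lemma admissible_id (O : TransferSystem G) (X : FinGSet G) : Admissible O (MulActionHom.id G (X := X)) :=
  fun _ => O.refl _

lemma stabilizer_pullback {U V Y : FinGSet G} (f : U →[G] Y) (b : V →[G] Y) (p : Pullback f b) :
    stabilizer G p = stabilizer G p.1.1 ⊓ stabilizer G p.1.2 := by
  ext g
  rw [Subgroup.mem_inf, mem_stabilizer_iff, mem_stabilizer_iff, mem_stabilizer_iff]
  constructor
  · intro h
    have h2 := congrArg Subtype.val h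
    exact ⟨congrArg Prod.fst h2, congrArg Prod.snd h2⟩
  · rintro ⟨h1, h2⟩
    exact Subtype.ext (Prod.ext h1 h2)

lemma admissible_pullback (O : TransferSystem G) {U Y V Z : FinGSet G} {f : U →[G] Y}
    (hf : Admissible O f) (b : V →[G] Y) {h : V →[G] Z} (hh : Admissible O h) :
    Admissible O (h.comp (Pullback.snd f b)) := by
  intro p
  rw [stabilizer_pullback f b p]
  refine O.trans _ _ _ (O.inter _ _ _ (hf p.1.1) ?_) (hh p.1.2)
  intro g hg
  rw [mem_stabilizer_iff] at hg ⊢
  rw [p.2, ← map_smul, hg]

lemma stabilizer_coprod {I : Type} [Fintype I] {U : I → FinGSet G} (p : Coprod U) :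
    stabilizer G p = stabilizer G p.2 := by
  ext g
  rw [mem_stabilizer_iff, mem_stabilizer_iff]
  constructor
  · intro h
    have h' : (⟨p.1, g • p.2⟩ : Σ i, U i) = ⟨p.1, p.2⟩ := h
    exact eq_of_heq (Sigma.mk.inj h').2
  · intro h
    have h' : (⟨p.1, g • p.2⟩ : Σ i, U i) = ⟨p.1, p.2⟩ := by rw [h]
    exact h'

lemma admissible_desc (O : TransferSystem G) {I : Type} [Fintype I] {U : I → FinGSet G}
    {Y : FinGSet G} {f : ∀ i, U i →[G] Y} (hf : ∀ i, Admissible O (f i)) :
    Admissible O (Coprod.desc f) := by
  intro p
  rw [stabilizer_coprod p]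
  exact hf p.1 p.2

/-- The data underlying a rational `𝒪`-Mackey functor: rational vector spaces `obj X` for the
finite `G`-sets `X` and a linear map `span a f : obj X → obj Y` for each span `X ← U → Y` with
`f : U → Y` admissible. -/
structure SpanData (O : TransferSystem G) where
  /-- the value on a finite `G`-set -/
  obj : FinGSet G → Type
  [addCommGroup : ∀ X, AddCommGroup (obj X)]
  [module : ∀ X, Module ℚ (obj X)]
  /-- the value on the span `X ← U → Y` -/
  span : ∀ {X U Y : FinGSet G} (_ : U →[G] X) (f : U →[G] Y), Admissible O f →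
    (obj X →ₗ[ℚ] obj Y)

attribute [instance] SpanData.addCommGroup SpanData.module

/-- The value on a span depends only on its isomorphism class. -/
def SpanData.IsoInvariant {O : TransferSystem G} (M : SpanData O) : Prop :=
  ∀ {X U U' Y : FinGSet G} (a : U →[G] X) (f : U →[G] Y) (hf : Admissible O f)
    (a' : U' →[G] X) (f' : U' →[G] Y) (hf' : Admissible O f') (e : U ≃ U'),
    (∀ (g : G) (u : U), e (g • u) = g • e u) → (∀ u : U, a' (e u) = a u) →
    (∀ u : U, f' (e u) = f u) → M.span a f hf = M.span a' f' hf'

/-- Identities are preserved. -/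
def SpanData.PreservesId {O : TransferSystem G} (M : SpanData O) : Prop :=
  ∀ X : FinGSet G, M.span (MulActionHom.id G (X := X)) (MulActionHom.id G (X := X))
    (admissible_id O X) = LinearMap.id

/-- Composition (by pullback) is preserved. -/
def SpanData.PreservesComp {O : TransferSystem G} (M : SpanData O) : Prop :=
  ∀ {X U Y V Z : FinGSet G} (a : U →[G] X) (f : U →[G] Y) (hf : Admissible O f)
    (b : V →[G] Y) (h : V →[G] Z) (hh : Admissible O h),
    (M.span b h hh) ∘ₗ (M.span a f hf) =
      M.span (a.comp (Pullback.fst f b)) (h.comp (Pullback.snd f b))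
        (admissible_pullback O hf b hh)

/-- Disjoint unions of spans, the sums of morphisms in `A^𝒪_ℚ`, are sent to sums. -/
def SpanData.PreservesSum {O : TransferSystem G} (M : SpanData O) : Prop :=
  ∀ {X Y : FinGSet G} {I : Type} [Fintype I] (U : I → FinGSet G)
    (a : ∀ i, U i →[G] X) (f : ∀ i, U i →[G] Y) (hf : ∀ i, Admissible O (f i)),
    M.span (Coprod.desc a) (Coprod.desc f) (admissible_desc O hf) =
      ∑ i, M.span (a i) (f i) (hf i)

/-- A rational `𝒪`-Mackey functor, i.e. a `ℚ`-linear additive functor from the `𝒪`-Burnside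
category `A^𝒪_ℚ` to rational vector spaces. The morphisms of `A^𝒪_ℚ` are linear combinations of
isomorphism classes of spans `X ← U → Y` with `U → Y` admissible, so such a functor consists of
vector spaces `obj X` and of a linear map `span a f : obj X → obj Y` for each such span, depending
only on its isomorphism class, compatible with identities and with composition by pullback, and
sending disjoint unions of spans, the sums of morphisms in `A^𝒪_ℚ`, to sums. -/
structure Mackey (O : TransferSystem G) extends SpanData O where
  span_iso : toSpanData.IsoInvariant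
  span_id : toSpanData.PreservesId
  span_comp : toSpanData.PreservesComp
  span_sum : toSpanData.PreservesSum

variable {O : TransferSystem G}

/-- Morphisms of rational Mackey functors: natural transformations. -/
structure Mackey.Hom (M N : Mackey O) where
  /-- the components -/
  app : ∀ X, M.obj X →ₗ[ℚ] N.obj X
  naturality : ∀ {X U Y : FinGSet G} (a : U →[G] X) (f : U →[G] Y) (hf : Admissible O f),
    app Y ∘ₗ M.span a f hf = N.span a f hf ∘ₗ app X

/-- `P` is projective: maps out of `P` lift along all epimorphisms, i.e. along all pointwise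
surjective morphisms. -/
def Mackey.IsProjective (P : Mackey O) : Prop :=
  ∀ (M N : Mackey O) (p : M.Hom N), (∀ X, Function.Surjective (p.app X)) →
    ∀ h : P.Hom N, ∃ l : P.Hom M, ∀ X m, p.app X (l.app X m) = h.app X m

/-- `0 → K → P → M → 0` is a short exact sequence. -/
def Mackey.IsShortExact {K P M : Mackey O} (i : K.Hom P) (p : P.Hom M) : Prop :=
  ∀ X, Function.Injective (i.app X) ∧ Function.Surjective (p.app X) ∧
    ∀ m, p.app X m = 0 ↔ ∃ k, i.app X k = m

/-- `PdLE n M`: the projective dimension of `M` is at most `n`, i.e. there is an exact sequence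
`0 → Pₙ → ⋯ → P₀ → M → 0` with all `Pᵢ` projective. -/
def Mackey.PdLE : ℕ → Mackey O → Prop
  | 0, M => M.IsProjective
  | n + 1, M => ∃ (P K : Mackey O) (i : K.Hom P) (p : P.Hom M), P.IsProjective ∧
      Mackey.IsShortExact i p ∧ Mackey.PdLE n K

/-- The global dimension of the category of rational `𝒪`-Mackey functors: the least `n` such that
all objects have projective dimension at most `n`, and `∞` if there is no such `n`. -/
noncomputable def gldim (O : TransferSystem G) : ℕ∞ :=
  ⨅ (n : ℕ) (_ : ∀ M : Mackey O, M.PdLE n), (n : ℕ∞)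

end Pool.Agent.Helper20_Mackey
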