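import Pool.Agent.Helper20_Mackey.Unit

/-!
# Injectivity of the unit
-/

set_option autoImplicit false
set_option linter.unusedSectionVars false

open MulAction Function

namespace Pool.Agent.Helper20_Mackey

variable {G : Type} [Group G] [Finite G] {O : TransferSystem G}

open scoped Classical in
noncomputable instance (X : FinGSet G) : Fintype (Quotient (orbitRel G X)) := Fintype.ofFinite _

/-- decomposition of a span into orbits -/
lemma Mackey.span_orbits (M : Mackey O) {X U Y : FinGSet G} (a : U →[G] X) (f : U →[G] Y)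
    (hf : Admissible O f) (m : M.obj X) :
    M.span a f hf m = ∑ i : Quotient (orbitRel G U), M.up (f i.out) (stabilizer G i.out)
      (M.dn (a i.out) (stabilizer G i.out) m) := by
  have h1 : ∀ i : Quotient (orbitRel G U), f.comp (ev i.out (stabilizer G i.out) le_rfl) =
      ev (f i.out) (stabilizer G i.out) (O.le _ _ (hf i.out)) := by
    intro i
    apply hom_ext
    intro q
    obtain ⟨k, rfl⟩ := exists_pt q
    exact map_smul f k _
  have h2 : ∀ i : Quotient (orbitRel G U), Admissible O
      (f.comp (ev i.out (stabilizer G i.out) le_rfl)) := by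
    intro i
    rw [h1]
    exact ev_admissible (hf i.out)
  rw [M.span_decomp (fun i : Quotient (orbitRel G U) => orb (stabilizer G i.out))
    (fun i => ev i.out (stabilizer G i.out) le_rfl) ?_ a f hf h2 m]
  · apply Finset.sum_congr rfl
    intro i _
    rw [M.span_eq, ← M.pull_pull, ← M.dn_eq, M.dn_pull _ le_rfl, M.up_eq (hf i.out)]
    congr 1
    congr 1
    exact h1 i
  · constructor
    · rintro ⟨i, q⟩ ⟨i', q'⟩ h
      obtain ⟨k, rfl⟩ := exists_pt q
      obtain ⟨k', rfl⟩ := exists_pt q'
      have h' : k • i.out = k' • i'.out := h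
      have h3 : i = i' := by
        rw [← i.out_eq, ← i'.out_eq]
        apply Quotient.sound
        change i.out ∈ orbit G i'.out
        rw [mem_orbit_iff]
        exact ⟨k⁻¹ * k', by rw [mul_smul, ← h', inv_smul_smul]⟩
      subst h3
      have h4 : pt (stabilizer G i.out) k = pt (stabilizer G i.out) k' := by
        rw [pt_eq_iff, mem_stabilizer_iff, mul_smul, ← h', inv_smul_smul]
      rw [h4]
    · intro u
      have h3 : (⟦u⟧ : Quotient (orbitRel G U)) = ⟦(⟦u⟧ : Quotient (orbitRel G U)).out⟧ :=
        (Quotient.out_eq _).symm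
      have h4 : u ∈ orbit G (⟦u⟧ : Quotient (orbitRel G U)).out := Quotient.exact h3
      rw [mem_orbit_iff] at h4
      obtain ⟨g, hg⟩ := h4
      exact ⟨⟨⟦u⟧, pt _ g⟩, hg⟩

namespace Mackey

variable (M : Mackey O)

/-- the part generated by transfers from subgroups of order at most `d` -/
def lower (X : FinGSet G) (d : ℕ) : Submodule ℚ (M.obj X) :=
  Submodule.span ℚ {v | ∃ (x : X) (L : Subgroup G) (m' : M.obj (orb L)),
    Nat.card L ≤ d ∧ v = M.up x L m'}

lemma up_mem_lower {X : FinGSet G} {d : ℕ} (x : X) {L : Subgroup G} (m : M.obj (orb L))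
    (h : Nat.card L ≤ d) : M.up x L m ∈ M.lower X d := Submodule.subset_span ⟨x, L, m, h, rfl⟩

lemma mem_lower_top {X : FinGSet G} (m : M.obj X) : m ∈ M.lower X (Nat.card G) := by
  have h : m = M.span (MulActionHom.id G) (MulActionHom.id G) (admissible_id O X) m := by
    rw [M.span_id]; rfl
  rw [h, M.span_orbits]
  apply Submodule.sum_mem
  intro i _
  apply up_mem_lower
  exact Subgroup.card_le_card_group _

lemma lower_zero (X : FinGSet G) : M.lower X 0 = ⊥ := by
  rw [eq_bot_iff]
  unfold lower
  rw [Submodule.span_le]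
  rintro v ⟨x, L, m', h, rfl⟩
  exact absurd h (by have := Nat.card_pos (α := L); omega)

lemma up_Tr {X : FinGSet G} {d : ℕ} (y : X) {K : Subgroup G} (h : Nat.card K ≤ d + 1) :
    M.Tr K ≤ (M.lower X d).comap (M.up y K) := by
  unfold Tr
  rw [Submodule.span_le]
  rintro v ⟨U, f, hf, m, h0, rfl⟩
  change M.up y K (M.push f hf m) ∈ M.lower X d
  by_cases hy : O.rel K (stabilizer G y)
  · rw [M.up_eq hy, push_push]
    unfold push
    rw [span_orbits]
    apply Submodule.sum_mem
    intro i _
    apply up_mem_lower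
    obtain ⟨g, hg⟩ := exists_pt (f i.out)
    have h1 := stab_le f i.out
    rw [hg, stabilizer_pt] at h1
    by_contra hc
    have h2 : stabilizer G i.out = cj g K := Dense.eq_of_card h1 (by rw [card_cj]; omega)
    apply h0 (g⁻¹ • i.out)
    · rw [map_smul, hg, smul_pt, inv_mul_cancel]
    · rw [stabilizer_smul', h2, cj_inv_cj]
  · rw [M.up_eq_zero hy]
    simp

/-- the operator on the quotient -/
noncomputable def upb {X : FinGSet G} {d : ℕ} (y : X) {K : Subgroup G}
    (h : Nat.card K ≤ d + 1) : M.Br K →ₗ[ℚ] (M.obj X ⧸ M.lower X d) :=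
  (M.Tr K).liftQ ((M.lower X d).mkQ ∘ₗ M.up y K) (by
    intro v hv
    rw [LinearMap.mem_ker, LinearMap.comp_apply, Submodule.mkQ_apply,
      Submodule.Quotient.mk_eq_zero]
    exact M.up_Tr y h hv)

lemma upb_val {X Y : FinGSet G} {d : ℕ} (y : X) {K : Subgroup G}
    (h : Nat.card K ≤ d + 1) (z : Y) (m : M.obj Y) :
    M.upb y h (M.val z K m) = Submodule.Quotient.mk (M.up y K (M.dn z K m)) := rfl

open scoped Classical in
/-- the projection operator -/
noncomputable def proj (X : FinGSet G) (d : ℕ) : M.obj X →ₗ[ℚ] M.obj X :=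
  ∑ y : X, ∑ K : Subgroup G, if Nat.card K = d then (d : ℚ) • (M.up y K ∘ₗ M.dn y K) else 0

open scoped Classical in
lemma proj_apply (X : FinGSet G) (d : ℕ) (m : M.obj X) : M.proj X d m =
    ∑ y : X, ∑ K : Subgroup G, if Nat.card K = d then (d : ℚ) • (M.up y K (M.dn y K m))
      else 0 := by
  unfold proj
  rw [LinearMap.sum_apply]
  apply Finset.sum_congr rfl
  intro y _
  rw [LinearMap.sum_apply]
  apply Finset.sum_congr rfl
  intro K _
  split_ifs
  · rfl
  · rfl

lemma proj_mem {X : FinGSet G} {d : ℕ} {m : M.obj X}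
    (h : ∀ (x : X) K, O.rel K (stabilizer G x) → M.val x K m = 0) :
    M.proj X (d + 1) m ∈ M.lower X d := by
  classical
  rw [proj_apply]
  apply Submodule.sum_mem
  intro y _
  apply Submodule.sum_mem
  intro K _
  by_cases hK : Nat.card K = d + 1
  · rw [if_pos hK]
    apply Submodule.smul_mem
    by_cases hy : O.rel K (stabilizer G y)
    · have h1 := h y K hy
      rw [val_apply, Submodule.Quotient.mk_eq_zero] at h1
      exact M.up_Tr y hK.le h1
    · rw [M.up_eq_zero hy]
      simp
  · rw [if_neg hK]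
    simp

lemma proj_up {X : FinGSet G} {d : ℕ} (x : X) (L : Subgroup G) (m : M.obj (orb L))
    (hL : Nat.card L ≤ d + 1) : (Submodule.Quotient.mk (M.proj X (d + 1) (M.up x L m)) :
      M.obj X ⧸ M.lower X d) = (Nat.card G : ℚ) • Submodule.Quotient.mk (M.up x L m) := by
  classical
  by_cases hx : O.rel L (stabilizer G x)
  swap
  · rw [M.up_eq_zero hx]
    simp
  have key : ∀ (y : X) (K : Subgroup G), (Submodule.Quotient.mk (if Nat.card K = d + 1 then
      ((d + 1 : ℕ) : ℚ) • (M.up y K (M.dn y K (M.up x L m))) else 0) : M.obj X ⧸ M.lower X d) =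
      ∑ q : orb L, if (K = stabilizer G q ∧ Nat.card L = d + 1) ∧ ev x L (O.le _ _ hx) q = y then
        ((d + 1 : ℕ) : ℚ) • Submodule.Quotient.mk (M.up x L m) else 0 := by
    intro y K
    by_cases hK : Nat.card K = d + 1
    · rw [if_pos hK, Submodule.Quotient.mk_smul]
      by_cases hy : K ≤ stabilizer G y
      · rw [← M.upb_val y hK.le y, M.up_eq hx]
        unfold push
        rw [M.val_span _ _ _ _ _ hy, map_sum, Finset.smul_sum]
        apply Finset.sum_congr rfl
        intro q _
        obtain ⟨g, rfl⟩ := exists_pt q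
        by_cases h1 : ev x L (O.le _ _ hx) (pt L g) = y ∧ K ≤ stabilizer G (pt L g)
        · have h2 : K = cj g L := by
            have h3 := h1.2
            rw [stabilizer_pt] at h3
            exact Dense.eq_of_card h3 (by rw [card_cj]; omega)
          have h4 : Nat.card L = d + 1 := by rw [← hK, h2, card_cj]
          rw [if_pos h1, if_pos ⟨⟨by rw [stabilizer_pt, h2], h4⟩, h1.1⟩, upb_val]
          have h5 : y = g • x := h1.1.symm
          subst h2
          rw [h5]
          change _ • Submodule.Quotient.mk (M.up (g • x) (cj g L) (M.dn (pt L g) (cj g L) m)) = _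
          rw [M.up_dn_cj, M.up_eq hx]
          rfl
        · rw [if_neg h1, map_zero, smul_zero, if_neg]
          rintro ⟨⟨h2, h3⟩, h4⟩
          exact h1 ⟨h4, h2.le⟩
      · have h0 : M.dn y K = 0 := by unfold dn; rw [dif_neg hy]
        rw [h0, LinearMap.zero_apply, map_zero, Submodule.Quotient.mk_zero, smul_zero]
        symm
        apply Finset.sum_eq_zero
        intro q _
        rw [if_neg]
        rintro ⟨⟨h2, h3⟩, h4⟩
        apply hy
        rw [h2, ← h4]
        exact stab_le _ _
    · rw [if_neg hK, Submodule.Quotient.mk_zero]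
      symm
      apply Finset.sum_eq_zero
      intro q _
      rw [if_neg]
      rintro ⟨⟨h2, h3⟩, h4⟩
      apply hK
      obtain ⟨g, rfl⟩ := exists_pt q
      rw [h2, stabilizer_pt, card_cj, h3]
  rw [proj_apply, ← Submodule.mkQ_apply, map_sum]
  simp only [map_sum, Submodule.mkQ_apply, key]
  have h1 : ∀ y : X, (∑ K : Subgroup G, ∑ q : orb L,
      if (K = stabilizer G q ∧ Nat.card L = d + 1) ∧ ev x L (O.le _ _ hx) q = y then
        ((d + 1 : ℕ) : ℚ) • (Submodule.Quotient.mk (M.up x L m) : M.obj X ⧸ M.lower X d) else 0) =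
      ∑ q : orb L, if Nat.card L = d + 1 ∧ ev x L (O.le _ _ hx) q = y then
        ((d + 1 : ℕ) : ℚ) • (Submodule.Quotient.mk (M.up x L m) : M.obj X ⧸ M.lower X d)
        else 0 := by
    intro y
    rw [Finset.sum_comm]
    apply Finset.sum_congr rfl
    intro q _
    rw [Finset.sum_eq_single (stabilizer G q)]
    · simp
    · intro K _ hK
      rw [if_neg]
      rintro ⟨⟨h2, h3⟩, h4⟩
      exact hK h2
    · intro h
      exact absurd (Finset.mem_univ _) h
  rw [Finset.sum_congr rfl fun y _ => h1 y, Finset.sum_comm]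
  have h2 : ∀ q : orb L, (∑ y : X, if Nat.card L = d + 1 ∧ ev x L (O.le _ _ hx) q = y then
        ((d + 1 : ℕ) : ℚ) • (Submodule.Quotient.mk (M.up x L m) : M.obj X ⧸ M.lower X d)
        else 0) = if Nat.card L = d + 1 then
        ((d + 1 : ℕ) : ℚ) • (Submodule.Quotient.mk (M.up x L m) : M.obj X ⧸ M.lower X d)
        else 0 := by
    intro q
    rw [Finset.sum_eq_single (ev x L (O.le _ _ hx) q)]
    · simp
    · intro K _ hK
      rw [if_neg]
      rintro ⟨h3, h4⟩
      exact hK h4.symm
    · intro h
      exact absurd (Finset.mem_univ _) h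
  rw [Finset.sum_congr rfl fun q _ => h2 q, Finset.sum_const, Finset.card_univ]
  by_cases h3 : Nat.card L = d + 1
  · rw [if_pos h3, ← Nat.cast_smul_eq_nsmul ℚ, smul_smul, ← h3]
    congr 1
    have h4 : Fintype.card (orb L) = Nat.card (G ⧸ L) := by
      rw [← Nat.card_eq_fintype_card]; rfl
    rw [h4]
    have h5 := Subgroup.card_eq_card_quotient_mul_card_subgroup L
    rw [h5]
    push_cast
    ring
  · rw [if_neg h3, smul_zero]
    have h4 : (Submodule.Quotient.mk (M.up x L m) : M.obj X ⧸ M.lower X d) = 0 := by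
      rw [Submodule.Quotient.mk_eq_zero]
      exact M.up_mem_lower _ _ (by omega)
    rw [h4, smul_zero]

lemma proj_lower {X : FinGSet G} {d : ℕ} {m : M.obj X} (hm : m ∈ M.lower X (d + 1)) :
    (Submodule.Quotient.mk (M.proj X (d + 1) m) : M.obj X ⧸ M.lower X d) =
      (Nat.card G : ℚ) • Submodule.Quotient.mk m := by
  have h : M.lower X (d + 1) ≤ LinearMap.ker
      ((M.lower X d).mkQ ∘ₗ M.proj X (d + 1) - (Nat.card G : ℚ) • (M.lower X d).mkQ) := by
    unfold lower
    rw [Submodule.span_le]
    rintro v ⟨x, L, m', hL, rfl⟩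
    have := M.proj_up x L m' hL
    change _ - _ = (0 : M.obj X ⧸ M.lower X d)
    exact sub_eq_zero.2 this
  have h2 := h hm
  exact sub_eq_zero.1 h2

lemma eq_zero_of_val {X : FinGSet G} {m : M.obj X}
    (h : ∀ (x : X) K, O.rel K (stabilizer G x) → M.val x K m = 0) : m = 0 := by
  have hG : (Nat.card G : ℚ) ≠ 0 := by
    exact_mod_cast Nat.card_pos.ne'
  have key : ∀ d, m ∈ M.lower X d → m ∈ M.lower X 0 := by
    intro d
    induction d with
    | zero => exact id
    | succ d ih =>
      intro hm
      apply ih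
      have h1 := M.proj_lower hm
      rw [(Submodule.Quotient.mk_eq_zero _).2 (M.proj_mem h)] at h1
      rw [← Submodule.Quotient.mk_eq_zero]
      exact (smul_eq_zero.1 h1.symm).resolve_left hG
  have h1 := key _ (M.mem_lower_top m)
  rw [M.lower_zero] at h1
  exact (Submodule.mem_bot ℚ).1 h1

end Mackey

lemma eta_injective (M : Mackey O) (X : FinGSet G) : Injective ((etaHom M).app X) := by
  rw [← LinearMap.ker_eq_bot, LinearMap.ker_eq_bot']
  intro m hm
  apply M.eq_zero_of_val
  intro x K h
  rw [← evl_eta _ h, hm, map_zero]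
  rfl

lemma eta_bijective (M : Mackey O) (X : FinGSet G) : Bijective ((etaHom M).app X) :=
  ⟨eta_injective M X, eta_surjective M X⟩

end Pool.Agent.Helper20_Mackey
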