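import Pool.Agent.Helper20_Mackey.Horseshoe

/-!
# Global dimension zero
-/

set_option autoImplicit false
set_option linter.unusedSectionVars false

open MulAction Function

namespace Pool.Agent.Helper20_Mackey

variable {G : Type} [Group G] [Finite G] {O : TransferSystem G}

/-- for the complete transfer system all modules are projective -/
lemma complete_projective (h : ∀ K H, K ≤ H → O.rel K H) (N : CMod O) : N.IsProjective := by
  intro A B p hp f
  have hG : (Nat.card G : ℚ) ≠ 0 := by
    exact_mod_cast Nat.card_pos.ne'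
  have h1 : ∀ K, ∃ s : B.obj K →ₗ[ℚ] A.obj K, ∀ b, p.app K (s b) = b := by
    intro K
    obtain ⟨s, hs⟩ := LinearMap.exists_rightInverse_of_surjective (p.app K)
      (LinearMap.range_eq_top.2 (hp K))
    exact ⟨s, fun b => LinearMap.congr_fun hs b⟩
  choose s hs using h1
  have hm : ∀ (g : G) (K : Subgroup G), Mor O K (cj g⁻¹ K) g := by
    intro g K
    have := mor_cj' (O := O) g⁻¹ K
    rwa [inv_inv] at this
  refine ⟨{ app := fun K => (Nat.card G : ℚ)⁻¹ • ∑ g : G, A.res K (cj g⁻¹ K) g ∘ₗ
              s (cj g⁻¹ K) ∘ₗ f.app (cj g⁻¹ K) ∘ₗ N.res (cj g⁻¹ K) K g⁻¹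
            nat := fun K H x hx n => ?_ }, fun K m => ?_⟩
  · rw [LinearMap.smul_apply, LinearMap.smul_apply, LinearMap.sum_apply, LinearMap.sum_apply,
      map_smul, map_sum]
    congr 1
    have hK : K = cj x H := by
      have h2 : cj x⁻¹ K = H := hx.2 _ (h _ _ hx.1) le_rfl
      rw [← h2, cj_cj_inv]
    have key : ∀ g : G, A.res K (cj (x * g)⁻¹ K) (x * g) (s (cj (x * g)⁻¹ K)
        (f.app (cj (x * g)⁻¹ K) (N.res (cj (x * g)⁻¹ K) K (x * g)⁻¹ (N.res K H x n)))) =
        A.res K H x (A.res H (cj g⁻¹ H) g (s (cj g⁻¹ H) (f.app (cj g⁻¹ H)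
          (N.res (cj g⁻¹ H) H g⁻¹ n)))) := by
      intro g
      have h3 : cj (x * g)⁻¹ K = cj g⁻¹ H := by
        rw [hK, cj_cj]
        congr 1
        simp [mul_assoc]
      rw [h3, A.res_comp _ _ _ _ _ hx (hm g H), N.res_comp _ _ _ _ _ _ hx]
      · congr 5
        simp [mul_assoc]
      · have h4 := (mor_cj (O := O) g⁻¹ H).comp (mor_cj' (O := O) x H)
        rw [hK]
        rwa [← mul_inv_rev] at h4
    refine (Fintype.sum_equiv (Equiv.mulLeft x) _ _ fun g => ?_).symm
    exact (key g).symm
  · change p.app K (((Nat.card G : ℚ)⁻¹ • ∑ g : G, A.res K (cj g⁻¹ K) g ∘ₗ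
              s (cj g⁻¹ K) ∘ₗ f.app (cj g⁻¹ K) ∘ₗ N.res (cj g⁻¹ K) K g⁻¹) m) = _
    rw [LinearMap.smul_apply, LinearMap.sum_apply, map_smul, map_sum]
    have h5 : ∀ g : G, p.app K ((A.res K (cj g⁻¹ K) g ∘ₗ
              s (cj g⁻¹ K) ∘ₗ f.app (cj g⁻¹ K) ∘ₗ N.res (cj g⁻¹ K) K g⁻¹) m) = f.app K m := by
      intro g
      simp only [LinearMap.comp_apply]
      rw [p.nat _ _ _ (hm g K), hs, f.nat _ _ _ (mor_cj g⁻¹ K), B.res_comp _ _ _ _ _ (hm g K)
        (mor_cj _ _), mul_inv_cancel, B.res_one]
    rw [Finset.sum_congr rfl fun g _ => h5 g, Finset.sum_const, Finset.card_univ,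
      ← Nat.card_eq_fintype_card, ← Nat.cast_smul_eq_nsmul ℚ, smul_smul, inv_mul_cancel₀ hG,
      one_smul]

/-- the constant module -/
noncomputable def const (O : TransferSystem G) : CMod O where
  obj _ := ℚ
  res _ _ _ := LinearMap.id
  res_self _ _ _ _ := rfl
  res_comp _ _ _ _ _ _ _ _ := rfl

/-- its quotient supported on subgroups of order at least `d` -/
noncomputable def high (O : TransferSystem G) (d : ℕ) : CMod O where
  obj K := PLift (d ≤ Nat.card K) → ℚ
  res K H _ := cond LinearMap.id (d ≤ Nat.card H) (d ≤ Nat.card K)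
  res_self K l hl n := by
    funext k
    exact cond_pos _ _ _ k.1
  res_comp K H J x y hx hy n := by
    apply cond_cond
    · intro _ h
      exact h.trans hx.card_le
    · intro _ _ v
      rfl

lemma exists_not_projective (h : ¬ ∀ K H, K ≤ H → O.rel K H) :
    ∃ N : CMod O, ¬ N.IsProjective := by
  push Not at h
  obtain ⟨K, H, hKH, hrel⟩ := h
  have hd : Dense O K (hull O K H) := dense_hull hKH
  have hlt : Nat.card K < Nat.card (hull O K H) := by
    by_contra hc
    have := Dense.eq_of_card (le_hull (O := O) K H) (not_lt.1 hc)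
    apply hrel
    rw [this]
    exact rel_hull hKH
  refine ⟨high O (Nat.card (hull O K H)), fun hP => ?_⟩
  set T := hull O K H with hT
  let p : (const O).Hom (high O (Nat.card T)) :=
    { app := fun S =>
        { toFun := fun v _ => v
          map_add' := fun _ _ => rfl
          map_smul' := fun _ _ => rfl }
      nat := fun S R x hx n => by
        funext k
        have h1 : Nat.card T ≤ Nat.card R := k.1.trans hx.card_le
        exact (cond_pos LinearMap.id (fun _ : PLift (Nat.card T ≤ Nat.card R) => (n : ℚ)) k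
          h1).symm }
  have hp : ∀ S, Surjective (p.app S) := by
    intro S n
    by_cases hS : Nat.card T ≤ Nat.card S
    · exact ⟨n ⟨hS⟩, rfl⟩
    · exact ⟨0, by funext k; exact absurd k.1 hS⟩
  obtain ⟨l, hl⟩ := hP _ _ p hp (CMod.Hom.id _)
  let z : PLift (Nat.card T ≤ Nat.card T) → ℚ := fun _ => 1
  have h1 : l.app T z = (1 : ℚ) := congrFun (hl T z) ⟨le_rfl⟩
  have h2 := l.nat K T 1 (mor_one.2 hd) z
  have h3 : (high O (Nat.card T)).res K T 1 z = 0 := by
    funext k
    exact absurd k.1 (not_le.2 hlt)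
  rw [h3, map_zero] at h2
  have h4 : (const O).res K T 1 (l.app T z) = l.app T z := rfl
  rw [h4, h1] at h2
  exact zero_ne_one (α := ℚ) h2

theorem gldim_eq_zero_iff (O : TransferSystem G) :
    gldim O = 0 ↔ ∀ K H, K ≤ H → O.rel K H := by
  have h0 : gldim O = 0 ↔ ∀ M : Mackey O, M.PdLE 0 := by
    constructor
    · intro h
      by_contra hc
      have h1 : (1 : ℕ∞) ≤ gldim O := by
        unfold gldim
        refine le_iInf fun n => le_iInf fun hn => ?_
        cases n with
        | zero => exact absurd hn hc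
        | succ n => exact_mod_cast Nat.succ_le_succ (Nat.zero_le n)
      rw [h] at h1
      exact absurd h1 (by simp)
    · intro h
      apply le_antisymm _ bot_le
      exact iInf_le_of_le 0 (iInf_le_of_le h le_rfl)
  rw [h0, pdLE_iff]
  constructor
  · intro h
    by_contra hc
    obtain ⟨N, hN⟩ := exists_not_projective hc
    exact hN (h N)
  · intro h N
    exact complete_projective h N

end Pool.Agent.Helper20_Mackey
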