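import Pool.Agent.Helper20_Mackey.CMod

/-!
# The Mackey functor of a module over the category of dense maps
-/

set_option autoImplicit false
set_option linter.unusedSectionVars false

open MulAction Function

namespace Pool.Agent.Helper20_Mackey

variable {G : Type} [Group G] [Finite G] {O : TransferSystem G}

/-- the families -/
def GObj (N : CMod O) (X : FinGSet G) : Submodule ℚ (∀ (_ : X) (K : Subgroup G), N.obj K) where
  carrier := {n | (∀ x K, ¬ O.rel K (stabilizer G x) → n x K = 0) ∧
    ∀ (g : G) x K, n (g • x) (cj g K) = N.res (cj g K) K g (n x K)}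
  add_mem' := by
    rintro a b ⟨ha1, ha2⟩ ⟨hb1, hb2⟩
    refine ⟨fun x K h => ?_, fun g x K => ?_⟩
    · change a x K + b x K = 0
      rw [ha1 x K h, hb1 x K h, add_zero]
    · change a _ _ + b _ _ = N.res _ _ _ (a x K + b x K)
      rw [ha2, hb2, map_add]
  zero_mem' := ⟨fun x K h => rfl, fun g x K => (map_zero (N.res (cj g K) K g)).symm⟩
  smul_mem' := by
    rintro c a ⟨ha1, ha2⟩
    refine ⟨fun x K h => ?_, fun g x K => ?_⟩
    · change c • a x K = 0
      rw [ha1 x K h, smul_zero]
    · change c • a _ _ = N.res _ _ _ (c • a x K)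
      rw [ha2, map_smul]

open scoped Classical in
/-- the value of the image under a span -/
noncomputable def gval (N : CMod O) {X U Y : FinGSet G} (a : U →[G] X) (f : U →[G] Y)
    (n : ∀ (_ : X) (K : Subgroup G), N.obj K) (y : Y) (K : Subgroup G) : N.obj K :=
  if O.rel K (stabilizer G y) then ∑ u : U, if f u = y ∧ K ≤ stabilizer G u then
    N.res K (hull O K (stabilizer G (a u))) 1 (n (a u) (hull O K (stabilizer G (a u)))) else 0
  else 0

lemma gval_of_rel (N : CMod O) {X U Y : FinGSet G} (a : U →[G] X) (f : U →[G] Y)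
    (n : ∀ (_ : X) (K : Subgroup G), N.obj K) (y : Y) (K : Subgroup G)
    (h : O.rel K (stabilizer G y)) : gval N a f n y K = 
    open Classical in ∑ u : U, if f u = y ∧ K ≤ stabilizer G u then
    N.res K (hull O K (stabilizer G (a u))) 1 (n (a u) (hull O K (stabilizer G (a u)))) else 0 := by
  unfold gval; rw [if_pos h]

lemma gval_of_not_rel (N : CMod O) {X U Y : FinGSet G} (a : U →[G] X) (f : U →[G] Y)
    (n : ∀ (_ : X) (K : Subgroup G), N.obj K) (y : Y) (K : Subgroup G)
    (h : ¬ O.rel K (stabilizer G y)) : gval N a f n y K = 0 := by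
  unfold gval; rw [if_neg h]

lemma gval_mem (N : CMod O) {X U Y : FinGSet G} (a : U →[G] X) (f : U →[G] Y)
    (n : GObj N X) : gval N a f n.1 ∈ GObj N Y := by
  classical
  refine ⟨fun y K h => gval_of_not_rel N a f n.1 y K h, fun g y K => ?_⟩
  by_cases h : O.rel K (stabilizer G y)
  · have h' : O.rel (cj g K) (stabilizer G (g • y)) := by rw [stabilizer_smul']; exact rel_cj h
    rw [gval_of_rel N a f n.1 y K h, gval_of_rel N a f n.1 _ _ h', map_sum]
    refine (Fintype.sum_equiv (MulAction.toPerm g) _ _ fun u => ?_).symm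
    have h1 : (f (MulAction.toPerm g u) = g • y ∧ cj g K ≤ stabilizer G (MulAction.toPerm g u)) ↔
        (f u = y ∧ K ≤ stabilizer G u) := by
      rw [MulAction.toPerm_apply, map_smul, stabilizer_smul', cj_le_iff, cj_inv_cj]
      constructor
      · rintro ⟨h1, h2⟩
        exact ⟨MulAction.injective g h1, h2⟩
      · rintro ⟨h1, h2⟩
        exact ⟨by rw [h1], h2⟩
    by_cases h2 : f u = y ∧ K ≤ stabilizer G u
    · rw [if_pos h2, if_pos (h1.2 h2), MulAction.toPerm_apply, map_smul, stabilizer_smul',
        hull_cj, n.2.2]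
      have hK := h2.2.trans (stab_le a u)
      rw [N.res_comp _ _ _ _ _ (mor_cj g K) (mor_one.2 (dense_hull hK)), mul_one]
      have h3 : Mor O (cj g K) (cj g (hull O K (stabilizer G (a u)))) 1 :=
        mor_one.2 (dense_hull hK).cj
      rw [N.res_comp _ _ _ _ _ h3 (mor_cj _ _), one_mul]
    · rw [if_neg h2, if_neg (fun h3 => h2 (h1.1 h3)), map_zero]
  · have h' : ¬ O.rel (cj g K) (stabilizer G (g • y)) := by
      rw [stabilizer_smul', rel_cj_iff]; exact h
    rw [gval_of_not_rel N a f n.1 y K h, gval_of_not_rel N a f n.1 _ _ h', map_zero]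

/-- the span maps -/
noncomputable def gspan (N : CMod O) {X U Y : FinGSet G} (a : U →[G] X) (f : U →[G] Y) :
    GObj N X →ₗ[ℚ] GObj N Y where
  toFun n := ⟨gval N a f n.1, gval_mem N a f n⟩
  map_add' m n := by
    classical
    apply Subtype.ext
    funext y K
    change gval N a f (m.1 + n.1) y K = gval N a f m.1 y K + gval N a f n.1 y K
    by_cases h : O.rel K (stabilizer G y)
    · rw [gval_of_rel N _ _ _ _ _ h, gval_of_rel N _ _ _ _ _ h, gval_of_rel N _ _ _ _ _ h,
        ← Finset.sum_add_distrib]
      apply Finset.sum_congr rfl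
      intro u _
      split_ifs with h1
      · exact map_add _ _ _
      · rw [add_zero]
    · rw [gval_of_not_rel N _ _ _ _ _ h, gval_of_not_rel N _ _ _ _ _ h,
        gval_of_not_rel N _ _ _ _ _ h, add_zero]
  map_smul' c n := by
    classical
    apply Subtype.ext
    funext y K
    change gval N a f (c • n.1) y K = c • gval N a f n.1 y K
    by_cases h : O.rel K (stabilizer G y)
    · rw [gval_of_rel N _ _ _ _ _ h, gval_of_rel N _ _ _ _ _ h, Finset.smul_sum]
      apply Finset.sum_congr rfl
      intro u _
      split_ifs with h1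
      · exact map_smul _ _ _
      · rw [smul_zero]
    · rw [gval_of_not_rel N _ _ _ _ _ h, gval_of_not_rel N _ _ _ _ _ h, smul_zero]

lemma gspan_val (N : CMod O) {X U Y : FinGSet G} (a : U →[G] X) (f : U →[G] Y) (n : GObj N X)
    (y : Y) (K : Subgroup G) : (gspan N a f n).1 y K = gval N a f n.1 y K := rfl

lemma gspan_ext {N : CMod O} {X : FinGSet G} {m n : GObj N X}
    (h : ∀ x K, O.rel K (stabilizer G x) → m.1 x K = n.1 x K) : m = n := by
  apply Subtype.ext
  funext x K
  by_cases h1 : O.rel K (stabilizer G x)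
  · exact h x K h1
  · rw [m.2.1 x K h1, n.2.1 x K h1]

/-- the Mackey functor of a module -/
noncomputable def GG (N : CMod O) : Mackey O where
  obj X := GObj N X
  span a f _ := gspan N a f
  span_iso := by
    classical
    intro X U U' Y a f hf a' f' hf' e he ha hff
    apply LinearMap.ext
    intro n
    apply gspan_ext
    intro y K h
    rw [gspan_val, gspan_val, gval_of_rel N _ _ _ _ _ h, gval_of_rel N _ _ _ _ _ h]
    refine Fintype.sum_equiv e _ _ fun u => ?_
    have hs : stabilizer G (e u) = stabilizer G u := by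
      ext g
      rw [mem_stabilizer_iff, mem_stabilizer_iff, ← he, e.injective.eq_iff]
    rw [hs, ha, hff]
  span_id := by
    classical
    intro X
    apply LinearMap.ext
    intro n
    apply gspan_ext
    intro y K h
    rw [gspan_val, gval_of_rel N _ _ _ _ _ h, Finset.sum_eq_single y]
    · rw [if_pos ⟨rfl, O.le _ _ h⟩]
      change N.res K (hull O K (stabilizer G y)) 1 (n.1 y (hull O K (stabilizer G y))) = n.1 y K
      rw [hull_of_rel h, N.res_one]
    · intro u _ hu
      rw [if_neg]
      rintro ⟨h1, -⟩
      exact hu h1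
    · intro h1
      exact absurd (Finset.mem_univ _) h1
  span_comp := by
    classical
    intro X U Y V Z a f hf b k hk
    apply LinearMap.ext
    intro n
    apply gspan_ext
    intro z K h
    rw [LinearMap.comp_apply, gspan_val, gspan_val, gval_of_rel N _ _ _ _ _ h,
      gval_of_rel N _ _ _ _ _ h, ← Finset.sum_filter, ← Finset.sum_filter]
    have hstep : ∀ v ∈ Finset.filter (fun v : V => k v = z ∧ K ≤ stabilizer G v) Finset.univ,
        N.res K (hull O K (stabilizer G (b v))) 1
          ((gspan N a f n).1 (b v) (hull O K (stabilizer G (b v)))) =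
        ∑ u ∈ Finset.filter (fun u : U => f u = b v ∧ K ≤ stabilizer G u) Finset.univ,
          N.res K (hull O K (stabilizer G (a u))) 1
            (n.1 (a u) (hull O K (stabilizer G (a u)))) := by
      intro v hv
      rw [Finset.mem_filter] at hv
      have hKb : K ≤ stabilizer G (b v) := hv.2.2.trans (stab_le b v)
      have hT := rel_hull (O := O) hKb
      rw [gspan_val, gval_of_rel N _ _ _ _ _ hT, ← Finset.sum_filter, map_sum]
      have hset : Finset.filter (fun u : U => f u = b v ∧
          hull O K (stabilizer G (b v)) ≤ stabilizer G u) Finset.univ =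
          Finset.filter (fun u : U => f u = b v ∧ K ≤ stabilizer G u) Finset.univ := by
        apply Finset.filter_congr
        intro u _
        constructor
        · rintro ⟨h1, h2⟩
          exact ⟨h1, (le_hull _ _).trans h2⟩
        · rintro ⟨h1, h2⟩
          refine ⟨h1, hull_le ?_ h2⟩
          rw [← h1]
          exact hf u
      rw [hset]
      apply Finset.sum_congr rfl
      intro u hu
      rw [Finset.mem_filter] at hu
      have hTu : hull O K (stabilizer G (b v)) ≤ stabilizer G u := by
        apply hull_le _ hu.2.2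
        rw [← hu.2.1]
        exact hf u
      have hTa := hTu.trans (stab_le a u)
      have hd := dense_hull (O := O) hKb
      rw [N.res_comp _ _ _ _ _ (mor_one.2 hd) (mor_one.2 (dense_hull hTa)), mul_one,
        ← hull_eq_of_dense hd hTa]
    rw [Finset.sum_congr rfl hstep, Finset.sum_sigma']
    refine Finset.sum_bij' (fun p hp => Pullback.pnt f b p.2 p.1 ?_)
      (fun p _ => ⟨p.1.2, p.1.1⟩) ?_ ?_ ?_ ?_ ?_
    · rw [Finset.mem_sigma, Finset.mem_filter, Finset.mem_filter] at hp
      exact hp.2.2.1
    · rintro ⟨v, u⟩ hp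
      rw [Finset.mem_sigma, Finset.mem_filter, Finset.mem_filter] at hp
      rw [Finset.mem_filter, stabilizer_pullback]
      exact ⟨Finset.mem_univ _, hp.1.2.1, le_inf hp.2.2.2 hp.1.2.2⟩
    · intro p hp
      rw [Finset.mem_filter, stabilizer_pullback] at hp
      rw [Finset.mem_sigma, Finset.mem_filter, Finset.mem_filter]
      exact ⟨⟨Finset.mem_univ _, hp.2.1, hp.2.2.trans inf_le_right⟩,
        Finset.mem_univ _, p.2, hp.2.2.trans inf_le_left⟩
    · intro p hp
      rfl
    · intro p hp
      rfl
    · intro p hp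
      rfl
  span_sum := by
    classical
    intro X Y I _ U a f hf
    apply LinearMap.ext
    intro n
    apply gspan_ext
    intro y K h
    rw [LinearMap.sum_apply, gspan_val, gval_of_rel N _ _ _ _ _ h]
    have h1 : (∑ i, gspan N (a i) (f i) n).1 y K = ∑ i, (gspan N (a i) (f i) n).1 y K := by
      rw [AddSubmonoidClass.coe_finsetSum, Finset.sum_apply, Finset.sum_apply]
    rw [h1]
    have h2 : ∀ i, (gspan N (a i) (f i) n).1 y K = ∑ u : U i, if f i u = y ∧ K ≤ stabilizer G u then
        N.res K (hull O K (stabilizer G (a i u))) 1 (n.1 (a i u) (hull O K (stabilizer G (a i u))))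
        else 0 := fun i => by rw [gspan_val, gval_of_rel N _ _ _ _ _ h]
    rw [Finset.sum_congr rfl (fun i _ => h2 i), ← Fintype.sum_sigma']
    let e : (Coprod U : FinGSet G) ≃ (Σ i, (U i : Type)) := Equiv.refl _
    refine Fintype.sum_equiv e _ _ fun p => ?_
    rw [stabilizer_coprod]
    rfl

end Pool.Agent.Helper20_Mackey
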