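import Pool.Agent.Helper20_Mackey.Restrict

/-!
# The horseshoe lemma and the order filtration
-/

set_option autoImplicit false
set_option linter.unusedSectionVars false

open MulAction Function

namespace Pool.Agent.Helper20_Mackey

variable {G : Type} [Group G] [Finite G] {O O' : TransferSystem G}

namespace CMod

lemma ker_aux {A B : CMod O} (f : A.Hom B) {K H : Subgroup G} {x : G} (h : Mor O K H x) :
    ∀ z ∈ LinearMap.ker (f.app H), A.res K H x z ∈ LinearMap.ker (f.app K) := by
  intro z hz
  rw [LinearMap.mem_ker] at hz ⊢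
  rw [f.nat _ _ _ h, hz, map_zero]

open scoped Classical in
/-- the restriction maps of a kernel -/
noncomputable def kerRes {A B : CMod O} (f : A.Hom B) (K H : Subgroup G) (x : G) :
    LinearMap.ker (f.app H) →ₗ[ℚ] LinearMap.ker (f.app K) :=
  if h : Mor O K H x then (A.res K H x).restrict (ker_aux f h) else 0

lemma kerRes_coe {A B : CMod O} (f : A.Hom B) {K H : Subgroup G} {x : G} (h : Mor O K H x)
    (z : LinearMap.ker (f.app H)) : (kerRes f K H x z).1 = A.res K H x z.1 := by
  unfold kerRes
  rw [dif_pos h]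
  rfl

/-- kernels -/
noncomputable def ker {A B : CMod O} (f : A.Hom B) : CMod O where
  obj K := LinearMap.ker (f.app K)
  res K H x := kerRes f K H x
  res_self K l hl n := by
    apply Subtype.ext
    rw [kerRes_coe f (mor_self hl), A.res_self K l hl]
  res_comp K H J x y hx hy n := by
    apply Subtype.ext
    rw [kerRes_coe f hx, kerRes_coe f hy, kerRes_coe f (hx.comp hy), A.res_comp _ _ _ _ _ hx hy]

/-- the inclusion of a kernel -/
noncomputable def kerι {A B : CMod O} (f : A.Hom B) : (ker f).Hom A where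
  app K := (LinearMap.ker (f.app K)).subtype
  nat _ _ _ h n := kerRes_coe f h n

/-- biproducts -/
def prod (A B : CMod O) : CMod O where
  obj K := A.obj K × B.obj K
  res K H x := (A.res K H x).prodMap (B.res K H x)
  res_self K l hl n := Prod.ext (A.res_self K l hl n.1) (B.res_self K l hl n.2)
  res_comp K H J x y hx hy n := Prod.ext (A.res_comp K H J x y hx hy n.1)
    (B.res_comp K H J x y hx hy n.2)

/-- lift a morphism along an injective one -/
lemma Hom.factor {A B D : CMod O} (i : A.Hom B) (hi : ∀ K, Injective (i.app K)) (φ : D.Hom B)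
    (h : ∀ K d, ∃ a, i.app K a = φ.app K d) : ∃ ψ : D.Hom A, ∀ K d,
      i.app K (ψ.app K d) = φ.app K d := by
  choose ψ hψ using h
  refine ⟨{ app := fun K =>
              { toFun := ψ K
                map_add' := fun a b => hi K (by rw [map_add, hψ, hψ, hψ, map_add])
                map_smul' := fun a b => hi K (by
                  rw [map_smul, hψ, hψ, map_smul, RingHom.id_apply]) }
            nat := fun K H x hx n => hi K ?_ }, fun K d => hψ K d⟩
  change i.app K (ψ K (D.res K H x n)) = i.app K (A.res K H x (ψ H n))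
  rw [hψ, i.nat _ _ _ hx, hψ, φ.nat _ _ _ hx]

/-- sums of morphisms -/
def Hom.add {A B : CMod O} (f g : A.Hom B) : A.Hom B where
  app K := f.app K + g.app K
  nat K H x hx n := by
    rw [LinearMap.add_apply, f.nat _ _ _ hx, g.nat _ _ _ hx, LinearMap.add_apply, map_add]

/-- differences of morphisms -/
def Hom.sub {A B : CMod O} (f g : A.Hom B) : A.Hom B where
  app K := f.app K - g.app K
  nat K H x hx n := by
    rw [LinearMap.sub_apply, f.nat _ _ _ hx, g.nat _ _ _ hx, LinearMap.sub_apply, map_sub]

/-- the identity -/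
def Hom.id (A : CMod O) : A.Hom A where
  app _ := LinearMap.id
  nat _ _ _ _ _ := rfl

/-- projections -/
def fst (A B : CMod O) : (prod A B).Hom A where
  app K := LinearMap.fst ℚ (A.obj K) (B.obj K)
  nat _ _ _ _ _ := rfl

/-- projections -/
def snd (A B : CMod O) : (prod A B).Hom B where
  app K := LinearMap.snd ℚ (A.obj K) (B.obj K)
  nat _ _ _ _ _ := rfl

/-- injections -/
def inl (A B : CMod O) : A.Hom (prod A B) where
  app K := LinearMap.inl ℚ (A.obj K) (B.obj K)
  nat K H x _ _ := Prod.ext rfl (map_zero (B.res K H x)).symm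

/-- injections -/
def inr (A B : CMod O) : B.Hom (prod A B) where
  app K := LinearMap.inr ℚ (A.obj K) (B.obj K)
  nat K H x _ _ := Prod.ext (map_zero (A.res K H x)).symm rfl

lemma prod_projective {A B : CMod O} (hA : A.IsProjective) (hB : B.IsProjective) :
    (prod A B).IsProjective := by
  intro M N p hp h
  obtain ⟨l1, hl1⟩ := hA M N p hp (h.comp (inl A B))
  obtain ⟨l2, hl2⟩ := hB M N p hp (h.comp (inr A B))
  refine ⟨(l1.comp (fst A B)).add (l2.comp (snd A B)), fun K z => ?_⟩
  change p.app K (l1.app K z.1 + l2.app K z.2) = _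
  rw [map_add, hl1, hl2]
  refine ((h.app K).map_add ((z.1, 0) : A.obj K × B.obj K)
    ((0, z.2) : A.obj K × B.obj K)).symm.trans ?_
  exact congrArg _ (Prod.ext (add_zero _) (zero_add _))

/-- the horseshoe lemma -/
theorem horseshoe : ∀ (n : ℕ) {A B C : CMod O} (i : A.Hom B) (q : B.Hom C),
    IsShortExact i q → PdLE n A → PdLE n C → PdLE n B
  | 0, A, B, C, i, q, h, hA, hC => by
    intro X Y p hp f
    obtain ⟨s, hs⟩ := hC B C q (fun K => (h K).2.1) (Hom.id C)
    obtain ⟨r, hr⟩ := Hom.factor i (fun K => (h K).1) ((Hom.id B).sub (s.comp q)) (by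
      intro K d
      rw [← (h K).2.2]
      change q.app K (d - s.app K (q.app K d)) = 0
      rw [map_sub, hs]
      exact sub_self _)
    obtain ⟨l1, hl1⟩ := hC X Y p hp (f.comp s)
    obtain ⟨l2, hl2⟩ := hA X Y p hp (f.comp i)
    refine ⟨(l1.comp q).add (l2.comp r), fun K z => ?_⟩
    change p.app K (l1.app K (q.app K z) + l2.app K (r.app K z)) = _
    rw [map_add, hl1, hl2]
    change f.app K (s.app K (q.app K z)) + f.app K (i.app K (r.app K z)) = _
    rw [hr, ← map_add]
    change f.app K (s.app K (q.app K z) + (z - s.app K (q.app K z))) = _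
    congr 1
    abel
  | n + 1, A, B, C, i, q, h, hA, hC => by
    obtain ⟨PA, KA, iA, pA, hPA, hsA, hKA⟩ := hA
    obtain ⟨PC, KC, iC, pC, hPC, hsC, hKC⟩ := hC
    obtain ⟨t, ht⟩ := hPC B C q (fun K => (h K).2.1) pC
    let π : (prod PA PC).Hom B := ((i.comp pA).comp (fst PA PC)).add (t.comp (snd PA PC))
    have hπ : ∀ K (z : PA.obj K × PC.obj K), π.app K z = i.app K (pA.app K z.1) + t.app K z.2 :=
      fun K z => rfl
    have hqi : ∀ K (a : A.obj K), q.app K (i.app K a) = 0 := fun K a => ((h K).2.2 _).2 ⟨a, rfl⟩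
    have hπs : ∀ K, Surjective (π.app K) := by
      intro K b
      obtain ⟨c, hc⟩ := (hsC K).2.1 (q.app K b)
      have h1 : q.app K (b - t.app K c) = 0 := by
        rw [map_sub, ht, hc, sub_self]
      obtain ⟨a, ha⟩ := ((h K).2.2 _).1 h1
      obtain ⟨a', rfl⟩ := (hsA K).2.1 a
      refine ⟨(a', c), ?_⟩
      rw [hπ, ha]
      abel
    refine ⟨prod PA PC, ker π, kerι π, π, prod_projective hPA hPC, fun K =>
      ⟨Subtype.val_injective, hπs K, fun m => ⟨fun hm => ⟨⟨m, hm⟩, rfl⟩, ?_⟩⟩, ?_⟩
    · rintro ⟨k, rfl⟩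
      exact k.2
    · -- the sequence of kernels
      obtain ⟨j, hj⟩ := Hom.factor (kerι π) (fun K => Subtype.val_injective)
        ((inl PA PC).comp iA) (by
        intro K d
        have h1 : π.app K (iA.app K d, 0) = 0 := by
          rw [hπ]
          change i.app K (pA.app K (iA.app K d)) + t.app K 0 = 0
          rw [((hsA K).2.2 _).2 ⟨d, rfl⟩, map_zero, map_zero, add_zero]
        exact ⟨⟨_, h1⟩, rfl⟩)
      obtain ⟨r, hr⟩ := Hom.factor iC (fun K => (hsC K).1) ((snd PA PC).comp (kerι π)) (by
        intro K d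
        rw [← (hsC K).2.2]
        have h1 : i.app K (pA.app K d.1.1) + t.app K d.1.2 = 0 := d.2
        have h2 := congrArg (q.app K) h1
        rw [map_add, hqi, zero_add, ht, map_zero] at h2
        exact h2)
      refine horseshoe n j r (fun K => ⟨?_, ?_, ?_⟩) hKA hKC
      · intro a b hab
        apply (hsA K).1
        have h1 := congrArg ((kerι π).app K) hab
        rw [hj, hj] at h1
        exact (Prod.ext_iff.1 h1).1
      · intro k
        have h0 : pC.app K (iC.app K k) = 0 := ((hsC K).2.2 _).2 ⟨k, rfl⟩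
        rw [← ht] at h0
        obtain ⟨a, ha⟩ := ((h K).2.2 _).1 h0
        obtain ⟨a', rfl⟩ := (hsA K).2.1 a
        have h1 : π.app K (-a', iC.app K k) = 0 := by
          rw [hπ]
          change i.app K (pA.app K (-a')) + t.app K (iC.app K k) = 0
          rw [map_neg, map_neg, ha, neg_add_cancel]
        refine ⟨⟨_, h1⟩, ?_⟩
        apply (hsC K).1
        exact hr K ⟨_, h1⟩
      · intro z
        have hz2 : iC.app K (r.app K z) = z.1.2 := hr K z
        constructor
        · intro hz
          rw [hz, map_zero] at hz2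
          have h1 : i.app K (pA.app K z.1.1) + t.app K z.1.2 = 0 := z.2
          rw [← hz2, map_zero, add_zero] at h1
          have h3 : pA.app K z.1.1 = 0 := by
            apply (h K).1
            rw [h1, map_zero]
          obtain ⟨k, hk⟩ := ((hsA K).2.2 _).1 h3
          refine ⟨k, ?_⟩
          apply Subtype.ext
          have h4 : (j.app K k).1 = (iA.app K k, 0) := hj K k
          rw [h4]
          exact Prod.ext hk hz2
        · rintro ⟨k, rfl⟩
          apply (hsC K).1
          have h4 : (j.app K k).1 = (iA.app K k, 0) := hj K k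
          rw [h4] at hz2
          rw [hz2, map_zero]

end CMod

/-! ### The filtration by order -/

open scoped Classical in
/-- extension by zero of a map along a change of condition -/
noncomputable def cond {V W : Type} [AddCommGroup V] [AddCommGroup W] [Module ℚ V] [Module ℚ W]
    (f : V →ₗ[ℚ] W) (p q : Prop) : (PLift p → V) →ₗ[ℚ] (PLift q → W) where
  toFun n := fun _ => if h : p then f (n ⟨h⟩) else 0
  map_add' m n := by
    funext _
    by_cases h : p
    · simp [h]
    · simp [h]
  map_smul' m n := by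
    funext _
    by_cases h : p
    · simp [h]
    · simp [h]

lemma cond_pos {V W : Type} [AddCommGroup V] [AddCommGroup W] [Module ℚ V] [Module ℚ W]
    (f : V →ₗ[ℚ] W) {p q : Prop} (n : PLift p → V) (k : PLift q) (h : p) :
    cond f p q n k = f (n ⟨h⟩) := dif_pos h

lemma cond_neg {V W : Type} [AddCommGroup V] [AddCommGroup W] [Module ℚ V] [Module ℚ W]
    (f : V →ₗ[ℚ] W) {p q : Prop} (n : PLift p → V) (k : PLift q) (h : ¬ p) :
    cond f p q n k = 0 := dif_neg h

/-- composition -/
lemma cond_cond {V W U : Type} [AddCommGroup V] [AddCommGroup W] [AddCommGroup U] [Module ℚ V]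
    [Module ℚ W] [Module ℚ U] (f : V →ₗ[ℚ] W) (g : W →ₗ[ℚ] U) (k : V →ₗ[ℚ] U) {p q r : Prop}
    (hpq : p → r → q) (h : p → r → ∀ v, g (f v) = k v) (n : PLift p → V) :
    cond g q r (cond f p q n) = cond k p r n := by
  funext l
  by_cases hp : p
  · have hq := hpq hp l.1
    rw [cond_pos _ _ _ hq, cond_pos _ _ _ hp, cond_pos _ _ _ hp, h hp l.1]
  · rw [cond_neg k _ _ hp]
    by_cases hq : q
    · rw [cond_pos _ _ _ hq, cond_neg _ _ _ hp, map_zero]
    · rw [cond_neg _ _ _ hq]

/-- the part of a module of order `d`, as a module for any transfer system -/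
noncomputable def conc (O : TransferSystem G) (N : CMod O') (d : ℕ) : CMod O where
  obj K := PLift (Nat.card K = d) → N.obj K
  res K H x := cond (N.res K H x) (Nat.card H = d) (Nat.card K = d)
  res_self K l hl n := by
    funext k
    rw [cond_pos _ _ _ k.1]
    exact N.res_self K l hl _
  res_comp K H J x y hx hy n := by
    apply cond_cond
    · intro hJ hK
      exact le_antisymm (hJ ▸ hy.card_le) (hK ▸ hx.card_le)
    · intro hJ hK v
      have hH : Nat.card H = d := le_antisymm (hJ ▸ hy.card_le) (hK ▸ hx.card_le)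
      have h1 : K = cj x H := hx.eq_of_card (by rw [hK, hH])
      have h2 : H = cj y J := hy.eq_of_card (by rw [hJ, hH])
      apply N.res_comp
      · rw [h1]; exact mor_cj x H
      · rw [h2]; exact mor_cj y J

/-- the part of a module of order at most `d` -/
noncomputable def trunc (N : CMod O) (d : ℕ) : CMod O where
  obj K := PLift (Nat.card K ≤ d) → N.obj K
  res K H x := cond (N.res K H x) (Nat.card H ≤ d) (Nat.card K ≤ d)
  res_self K l hl n := by
    funext k
    rw [cond_pos _ _ _ k.1]
    exact N.res_self K l hl _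
  res_comp K H J x y hx hy n := by
    apply cond_cond
    · intro hJ _
      exact hy.card_le.trans hJ
    · intro hJ hK v
      exact N.res_comp K H J x y hx hy _

/-- inclusion of truncations -/
noncomputable def truncIncl (N : CMod O) (d : ℕ) : (trunc N d).Hom (trunc N (d + 1)) where
  app K := cond LinearMap.id (Nat.card K ≤ d) (Nat.card K ≤ d + 1)
  nat K H x hx n := by
    refine (cond_cond (N.res K H x) LinearMap.id (N.res K H x) ?_ (fun _ _ _ => rfl) n).trans
      (cond_cond LinearMap.id (N.res K H x) (N.res K H x) ?_ (fun _ _ _ => rfl) n).symm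
    · intro h1 _
      exact hx.card_le.trans h1
    · intro h1 _
      exact h1.trans (Nat.le_succ d)

/-- projection of a truncation to its top part -/
noncomputable def truncProj (N : CMod O) (d : ℕ) : (trunc N (d + 1)).Hom (conc O N (d + 1)) where
  app K := cond LinearMap.id (Nat.card K ≤ d + 1) (Nat.card K = d + 1)
  nat K H x hx n := by
    have h0 := hx.card_le
    refine (cond_cond (N.res K H x) LinearMap.id (N.res K H x) ?_ (fun _ _ _ => rfl) n).trans
      (cond_cond LinearMap.id (N.res K H x) (N.res K H x) ?_ (fun _ _ _ => rfl) n).symm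
    · intro h1 h2
      exact h2.le
    · intro h1 h2
      omega

lemma trunc_exact (N : CMod O) (d : ℕ) : CMod.IsShortExact (truncIncl N d) (truncProj N d) := by
  intro K
  refine ⟨?_, ?_, ?_⟩
  · intro m n h
    funext k
    have h1 := congrFun h ⟨k.1.trans (Nat.le_succ d)⟩
    have h2 : ∀ m : (trunc N d).obj K, (truncIncl N d).app K m ⟨k.1.trans (Nat.le_succ d)⟩ =
        m k := fun m => cond_pos _ _ _ k.1
    rw [h2, h2] at h1
    exact h1
  · intro m
    refine ⟨cond LinearMap.id (Nat.card K = d + 1) (Nat.card K ≤ d + 1) m, ?_⟩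
    refine (cond_cond LinearMap.id LinearMap.id LinearMap.id ?_ (fun _ _ _ => rfl) m).trans ?_
    · intro h _
      exact h.le
    · funext k
      exact cond_pos _ _ _ k.1
  · intro m
    constructor
    · intro h
      refine ⟨cond LinearMap.id (Nat.card K ≤ d + 1) (Nat.card K ≤ d) m, ?_⟩
      funext k
      change cond LinearMap.id (Nat.card K ≤ d) (Nat.card K ≤ d + 1)
        (cond LinearMap.id (Nat.card K ≤ d + 1) (Nat.card K ≤ d) m) k = m k
      by_cases hk : Nat.card K ≤ d
      · rw [cond_pos _ _ _ hk, LinearMap.id_apply]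
        exact cond_pos _ _ _ k.1
      · have h2 : Nat.card K = d + 1 := le_antisymm k.1 (by omega)
        rw [cond_neg _ _ _ hk]
        have h3 := congrFun h ⟨h2⟩
        have h4 : (truncProj N d).app K m ⟨h2⟩ = m k := cond_pos _ _ _ k.1
        rw [h4] at h3
        exact h3.symm
    · rintro ⟨k, rfl⟩
      funext l
      have h2 : Nat.card K = d + 1 := l.1
      change cond LinearMap.id (Nat.card K ≤ d + 1) (Nat.card K = d + 1)
        (cond LinearMap.id (Nat.card K ≤ d) (Nat.card K ≤ d + 1) k) l = 0
      have h3 : ¬ Nat.card K ≤ d := by omega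
      rw [cond_pos _ _ _ h2.le]
      exact cond_neg (q := Nat.card K ≤ d + 1) _ k ⟨h2.le⟩ h3

/-- the comparison of `conc` for two transfer systems -/
lemma conc_pdLE (h : ∀ K H, O.rel K H → O'.rel K H) {n : ℕ} (hall : ∀ M : CMod O, M.PdLE n)
    (N : CMod O') (d : ℕ) : (conc O' N d).PdLE n :=
  resC_pdLE h n _ (hall (conc O N d))

lemma zero_pdLE : ∀ (n : ℕ) (N : CMod O) (_ : ∀ K (z : N.obj K), z = 0), N.PdLE n
  | 0, N, h => by
    intro A B p hp f
    refine ⟨{ app := fun K => 0, nat := fun K H x hx n => by simp }, fun K m => ?_⟩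
    rw [h K m, map_zero, map_zero, map_zero]
  | n + 1, N, h => by
    refine ⟨N, N, CMod.Hom.id N, CMod.Hom.id N, zero_pdLE 0 N h, fun K =>
      ⟨fun a b _ => by rw [h K a, h K b], fun z => ⟨z, rfl⟩, fun m => ⟨fun _ => ⟨m, rfl⟩,
        fun _ => h K _⟩⟩, zero_pdLE n N h⟩

lemma trunc_pdLE (h : ∀ K H, O.rel K H → O'.rel K H) {n : ℕ} (hall : ∀ M : CMod O, M.PdLE n)
    (N : CMod O') : ∀ d, (trunc N d).PdLE n
  | 0 => by
    apply zero_pdLE
    intro K z
    funext k
    exact absurd k.1 (by have := Nat.card_pos (α := K); omega)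
  | d + 1 => CMod.horseshoe n _ _ (trunc_exact N d) (trunc_pdLE h hall N d)
      (conc_pdLE h hall N (d + 1))

/-- the comparison theorem for modules -/
theorem cmod_mono (h : ∀ K H, O.rel K H → O'.rel K H) {n : ℕ} (hall : ∀ M : CMod O, M.PdLE n)
    (N : CMod O') : N.PdLE n := by
  refine CMod.PdLE.of_iso (A := trunc N (Nat.card G))
    { app := fun K => LinearMap.proj ⟨Subgroup.card_le_card_group K⟩
      nat := fun K H x hx m => ?_ } ?_ (trunc_pdLE h hall N _)
  · exact cond_pos (N.res K H x) m ⟨Subgroup.card_le_card_group K⟩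
      (Subgroup.card_le_card_group H)
  · intro K
    constructor
    · intro a b hab
      funext k
      exact hab
    · intro z
      exact ⟨fun _ => z, rfl⟩

/-- monotonicity at the level of Mackey functors -/
theorem mackey_mono (h : ∀ K H, O.rel K H → O'.rel K H) {n : ℕ}
    (hall : ∀ M : Mackey O, M.PdLE n) (M : Mackey O') : M.PdLE n :=
  (pdLE_iff O' n).2 (cmod_mono h ((pdLE_iff O n).1 hall)) M

theorem gldim_mono (h : ∀ K H, O.rel K H → O'.rel K H) : gldim O' ≤ gldim O := by
  unfold gldim
  refine le_iInf fun n => le_iInf fun hn => ?_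
  exact iInf_le_of_le n (iInf_le_of_le (mackey_mono h hn) le_rfl)

end Pool.Agent.Helper20_Mackey
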