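import Pool.Agent.Helper20_Mackey.Defs

/-!
# Dense inclusions for a transfer system
-/

set_option autoImplicit false

open MulAction

namespace Pool.Agent.Helper20_Mackey

variable {G : Type} [Group G]

/-- the conjugate `g K g⁻¹` -/
def cj (g : G) (K : Subgroup G) : Subgroup G := K.map (MulAut.conj g).toMonoidHom

lemma mem_cj {g x : G} {K : Subgroup G} : x ∈ cj g K ↔ g⁻¹ * x * g ∈ K := by
  unfold cj
  rw [Subgroup.mem_map]
  constructor
  · rintro ⟨y, hy, rfl⟩
    simpa [mul_assoc] using hy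
  · intro h
    exact ⟨g⁻¹ * x * g, h, by simp [mul_assoc]⟩

@[simp] lemma cj_one (K : Subgroup G) : cj 1 K = K := by
  ext x; rw [mem_cj]; simp

lemma cj_cj (g h : G) (K : Subgroup G) : cj g (cj h K) = cj (g * h) K := by
  ext x; rw [mem_cj, mem_cj, mem_cj]; simp [mul_assoc]

@[simp] lemma cj_inv_cj (g : G) (K : Subgroup G) : cj g⁻¹ (cj g K) = K := by
  rw [cj_cj]; simp

@[simp] lemma cj_cj_inv (g : G) (K : Subgroup G) : cj g (cj g⁻¹ K) = K := by
  rw [cj_cj]; simp

lemma cj_of_mem {g : G} {K : Subgroup G} (hg : g ∈ K) : cj g K = K := by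
  ext x; rw [mem_cj]
  constructor
  · intro h
    have := K.mul_mem (K.mul_mem hg h) (K.inv_mem hg)
    simpa [mul_assoc] using this
  · intro h
    exact K.mul_mem (K.mul_mem (K.inv_mem hg) h) hg

lemma cj_le_cj {g : G} {K H : Subgroup G} (h : K ≤ H) : cj g K ≤ cj g H := by
  intro x hx
  rw [mem_cj] at hx ⊢
  exact h hx

lemma cj_le_iff {g : G} {K H : Subgroup G} : cj g K ≤ H ↔ K ≤ cj g⁻¹ H := by
  constructor
  · intro h
    have := cj_le_cj (g := g⁻¹) h
    rwa [cj_inv_cj] at this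
  · intro h
    have := cj_le_cj (g := g) h
    rwa [cj_cj_inv] at this

lemma cj_inf (g : G) (K H : Subgroup G) : cj g (K ⊓ H) = cj g K ⊓ cj g H := by
  ext x; rw [Subgroup.mem_inf, mem_cj, mem_cj, mem_cj, Subgroup.mem_inf]

lemma card_cj (g : G) (K : Subgroup G) : Nat.card (cj g K) = Nat.card K := by
  unfold cj
  exact (Nat.card_congr (K.equivMapOfInjective _ (MulAut.conj g).injective).toEquiv).symm

lemma cj_injective (g : G) {K H : Subgroup G} (h : cj g K = cj g H) : K = H := by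
  rw [← cj_inv_cj g K, h, cj_inv_cj]

lemma stabilizer_smul' {X : Type*} [MulAction G X] (g : G) (x : X) :
    stabilizer G (g • x) = cj g (stabilizer G x) := by
  ext h
  rw [mem_cj, mem_stabilizer_iff, mem_stabilizer_iff, mul_smul, mul_smul, inv_smul_eq_iff]

variable {O : TransferSystem G}

lemma rel_cj {g : G} {K H : Subgroup G} (h : O.rel K H) : O.rel (cj g K) (cj g H) := O.conj g K H h

lemma rel_cj_iff {g : G} {K H : Subgroup G} : O.rel (cj g K) (cj g H) ↔ O.rel K H := by
  constructor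
  · intro h
    have := rel_cj (g := g⁻¹) h
    rwa [cj_inv_cj, cj_inv_cj] at this
  · exact rel_cj

lemma rel_inf {K L H : Subgroup G} (hK : O.rel K H) (hL : O.rel L H) : O.rel (K ⊓ L) H :=
  O.trans _ _ _ (O.inter K H L hK (O.le _ _ hL)) hL

lemma rel_of_le {K L H : Subgroup G} (hK : O.rel K H) (hL : L ≤ H) (hKL : K ≤ L) : O.rel K L := by
  have := O.inter K H L hK hL
  rwa [inf_of_le_left hKL] at this

variable (O)

/-- `K` is dense in `H`: no proper admissible subgroup of `H` contains `K`. -/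
def Dense (K H : Subgroup G) : Prop := K ≤ H ∧ ∀ N, O.rel N H → K ≤ N → N = H

/-- the smallest admissible subgroup of `H` containing `K` -/
def hull (K H : Subgroup G) : Subgroup G := sInf {N | O.rel N H ∧ K ≤ N}

variable {O}

lemma le_hull (K H : Subgroup G) : K ≤ hull O K H := le_sInf fun _ h => h.2

lemma hull_le {K H N : Subgroup G} (hN : O.rel N H) (hK : K ≤ N) : hull O K H ≤ N :=
  sInf_le ⟨hN, hK⟩

lemma hull_le_top {K H : Subgroup G} (hK : K ≤ H) : hull O K H ≤ H := hull_le (O.refl H) hK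

lemma rel_hull [Finite G] {K H : Subgroup G} (hK : K ≤ H) : O.rel (hull O K H) H := by
  have hne : ({N | O.rel N H ∧ K ≤ N} : Set (Subgroup G)).Nonempty := ⟨H, O.refl H, hK⟩
  obtain ⟨N, hN, hmin⟩ := (Set.toFinite ({N | O.rel N H ∧ K ≤ N} : Set (Subgroup G))).exists_minimal
    hne
  have : hull O K H = N := by
    apply le_antisymm (hull_le hN.1 hN.2)
    apply le_sInf
    rintro M ⟨hM1, hM2⟩
    have h1 : N ⊓ M ∈ ({N | O.rel N H ∧ K ≤ N} : Set (Subgroup G)) :=
      ⟨rel_inf hN.1 hM1, le_inf hN.2 hM2⟩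
    have h2 := hmin h1 inf_le_left
    exact h2.trans inf_le_right
  rw [this]
  exact hN.1

lemma dense_hull [Finite G] {K H : Subgroup G} (hK : K ≤ H) : Dense O K (hull O K H) := by
  refine ⟨le_hull K H, fun N hN hKN => ?_⟩
  have h1 : O.rel N H := O.trans _ _ _ hN (rel_hull hK)
  exact le_antisymm (O.le _ _ hN) (hull_le h1 hKN)

lemma Dense.refl (K : Subgroup G) : Dense O K K :=
  ⟨le_rfl, fun _ hN hK => le_antisymm (O.le _ _ hN) hK⟩

lemma Dense.trans {K L H : Subgroup G} (h1 : Dense O K L) (h2 : Dense O L H) : Dense O K H := by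
  refine ⟨h1.1.trans h2.1, fun N hN hK => ?_⟩
  have h3 : N ⊓ L = L := h1.2 _ (O.inter N H L hN h2.1) (le_inf hK h1.1)
  exact h2.2 N hN (inf_eq_right.1 h3)

lemma Dense.cj {g : G} {K H : Subgroup G} (h : Dense O K H) : Dense O (cj g K) (cj g H) := by
  refine ⟨cj_le_cj h.1, fun N hN hK => ?_⟩
  have h1 : O.rel (Helper20_Mackey.cj g⁻¹ N) H := by
    have := rel_cj (g := g⁻¹) hN
    rwa [cj_inv_cj] at this
  have h2 := h.2 _ h1 (cj_le_iff.1 hK)
  rw [← h2, cj_cj_inv]

lemma hull_eq_of_dense {K T H : Subgroup G} [Finite G] (h : Dense O K T) (hT : T ≤ H) :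
    hull O K H = hull O T H := by
  apply le_antisymm
  · exact hull_le (rel_hull hT) (h.1.trans (le_hull T H))
  · apply hull_le (rel_hull (h.1.trans hT))
    have h1 : O.rel (hull O K H ⊓ T) T := O.inter _ _ _ (rel_hull (h.1.trans hT)) hT
    have h2 := h.2 _ h1 (le_inf (le_hull K H) h.1)
    exact inf_eq_right.1 h2

lemma hull_of_rel {K H : Subgroup G} (h : O.rel K H) : hull O K H = K :=
  le_antisymm (hull_le h le_rfl) (le_hull K H)

lemma hull_self (K : Subgroup G) : hull O K K = K := hull_of_rel (O.refl K)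

lemma hull_of_dense {K H : Subgroup G} [Finite G] (h : Dense O K H) : hull O K H = H :=
  h.2 _ (rel_hull h.1) (le_hull K H)

lemma hull_cj (g : G) (K H : Subgroup G) : hull O (cj g K) (cj g H) = cj g (hull O K H) := by
  apply le_antisymm
  · rw [← cj_cj_inv g (hull O (cj g K) (cj g H))]
    apply cj_le_cj
    apply le_sInf
    rintro N ⟨h1, h2⟩
    rw [cj_le_iff, inv_inv]
    exact hull_le (rel_cj h1) (cj_le_cj h2)
  · apply le_sInf
    rintro N ⟨h1, h2⟩
    rw [cj_le_iff]
    apply hull_le _ (cj_le_iff.1 h2)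
    have := rel_cj (g := g⁻¹) h1
    rwa [cj_inv_cj] at this

lemma Dense.eq_of_card [Finite G] {K H : Subgroup G} (h : K ≤ H) (hc : Nat.card H ≤ Nat.card K) :
    K = H := by
  apply SetLike.coe_injective
  apply Set.eq_of_subset_of_ncard_le h _ (Set.toFinite _)
  exact hc

variable (O)

/-- morphisms `G/K → G/H`, `K ↦ x H` of the category of dense maps -/
def Mor (K H : Subgroup G) (x : G) : Prop := Dense O (cj x⁻¹ K) H

variable {O}

lemma mor_one {K H : Subgroup G} : Mor O K H 1 ↔ Dense O K H := by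
  unfold Mor; simp

lemma Mor.comp {K H J : Subgroup G} {x y : G} (h1 : Mor O K H x) (h2 : Mor O H J y) :
    Mor O K J (x * y) := by
  unfold Mor at *
  have h3 := Dense.trans (h1.cj (g := y⁻¹)) h2
  rwa [cj_cj, ← mul_inv_rev] at h3

lemma Mor.mul_mem {K H : Subgroup G} {x l : G} (h : Mor O K H x) (hl : l ∈ H) :
    Mor O K H (x * l) := by
  unfold Mor at *
  have h3 := h.cj (g := l⁻¹)
  rwa [cj_cj, ← mul_inv_rev, cj_of_mem (H.inv_mem hl)] at h3

lemma mor_cj (g : G) (K : Subgroup G) : Mor O (cj g K) K g := by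
  unfold Mor; rw [cj_inv_cj]; exact Dense.refl K

lemma mor_cj_cj {g x : G} {K H : Subgroup G} (h : Mor O K H x) :
    Mor O (cj g K) H (g * x) := (mor_cj g K).comp h

end Pool.Agent.Helper20_Mackey
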