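import Pool.Agent.Helper20_Mackey.Transport

/-!
# Restriction from `𝒪` to a larger transfer system `𝒪'`
-/

set_option autoImplicit false
set_option linter.unusedSectionVars false

open MulAction Function

namespace Pool.Agent.Helper20_Mackey

variable {G : Type} [Group G] [Finite G] {O O' : TransferSystem G}

lemma Dense.mono (h : ∀ K H, O.rel K H → O'.rel K H) {K H : Subgroup G} (hd : Dense O' K H) :
    Dense O K H := ⟨hd.1, fun N hN hK => hd.2 N (h _ _ hN) hK⟩

lemma Mor.mono (h : ∀ K H, O.rel K H → O'.rel K H) {K H : Subgroup G} {x : G}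
    (hd : Mor O' K H x) : Mor O K H x := Dense.mono h hd

/-- restriction of modules -/
def resC (h : ∀ K H, O.rel K H → O'.rel K H) (N : CMod O) : CMod O' where
  obj := N.obj
  res := N.res
  res_self := N.res_self
  res_comp K H J x y hx hy n := N.res_comp K H J x y (hx.mono h) (hy.mono h) n

/-- restriction of morphisms -/
def resMap (h : ∀ K H, O.rel K H → O'.rel K H) {A B : CMod O} (φ : A.Hom B) :
    (resC h A).Hom (resC h B) where
  app := φ.app
  nat K H x hx n := φ.nat K H x (hx.mono h) n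

variable (O O')

/-- the index condition -/
def Ix (L H : Subgroup G) : Prop := O'.rel L H ∧ Dense O L H

variable {O O'}

lemma Ix.refl (H : Subgroup G) : Ix O O' H H := ⟨O'.refl H, Dense.refl H⟩

lemma ix_cj {g : G} {L H : Subgroup G} (h : Ix O O' L H) : Ix O O' (cj g L) (cj g H) :=
  ⟨rel_cj h.1, h.2.cj⟩

lemma ix_cj_iff {g : G} {L H : Subgroup G} : Ix O O' (cj g L) (cj g H) ↔ Ix O O' L H := by
  constructor
  · intro h
    have := ix_cj (g := g⁻¹) h
    rwa [cj_inv_cj, cj_inv_cj] at this
  · exact ix_cj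

lemma ix_cj_mem {g : G} {L H : Subgroup G} (hg : g ∈ H) :
    Ix O O' (cj g L) H ↔ Ix O O' L H := by
  rw [← ix_cj_iff (g := g) (L := L) (H := H), cj_of_mem hg]

/-- the subgroup of `H` through which `x : L → H` factors -/
def tgt (O' : TransferSystem G) (L H : Subgroup G) (x : G) : Subgroup G := hull O' (cj x⁻¹ L) H

lemma mor_tgt {K H L : Subgroup G} {x : G} (hx : Mor O K H x) (hL : L ≤ K) :
    Mor O' L (tgt O' L H x) x := by
  unfold Mor tgt
  exact dense_hull ((cj_le_cj hL).trans hx.1)

lemma ix_tgt {K H L : Subgroup G} {x : G} (hx : Mor O K H x) (hL : Ix O O' L K) :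
    Ix O O' (tgt O' L H x) H := by
  have h1 : cj x⁻¹ L ≤ H := (cj_le_cj hL.2.1).trans hx.1
  refine ⟨rel_hull h1, hull_le_top h1, fun N hN hT => ?_⟩
  have h2 : Dense O (cj x⁻¹ L) H := (hL.2.cj).trans hx
  exact h2.2 N hN ((le_hull _ _).trans hT)

open scoped Classical in
/-- the restriction maps of the right adjoint -/
noncomputable def wres (N : CMod O') (K H : Subgroup G) (x : G) (n : ∀ L, N.obj L)
    (L : Subgroup G) : N.obj L :=
  if Mor O K H x ∧ Ix O O' L K then N.res L (tgt O' L H x) x (n (tgt O' L H x)) else 0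

variable (O) in
/-- the values of the right adjoint -/
def WObj (N : CMod O') (H : Subgroup G) : Submodule ℚ (∀ L : Subgroup G, N.obj L) where
  carrier := {n | (∀ L, ¬ Ix O O' L H → n L = 0) ∧
    ∀ k ∈ H, ∀ L, n (cj k L) = N.res (cj k L) L k (n L)}
  add_mem' := by
    rintro a b ⟨ha1, ha2⟩ ⟨hb1, hb2⟩
    refine ⟨fun L h => ?_, fun g hg L => ?_⟩
    · change a L + b L = 0
      rw [ha1 L h, hb1 L h, add_zero]
    · change a _ + b _ = N.res _ _ _ (a L + b L)
      rw [ha2 g hg, hb2 g hg, map_add]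
  zero_mem' := ⟨fun L h => rfl, fun g _ L => (map_zero (N.res (cj g L) L g)).symm⟩
  smul_mem' := by
    rintro c a ⟨ha1, ha2⟩
    refine ⟨fun L h => ?_, fun g hg L => ?_⟩
    · change c • a L = 0
      rw [ha1 L h, smul_zero]
    · change c • a _ = N.res _ _ _ (c • a L)
      rw [ha2 g hg, map_smul]

lemma wres_mem (N : CMod O') (K H : Subgroup G) (x : G) (n : WObj O N H) :
    wres (O := O) N K H x n.1 ∈ WObj O N K := by
  refine ⟨fun L h => if_neg fun h1 => h h1.2, fun k hk L => ?_⟩
  by_cases h : Mor O K H x ∧ Ix O O' L K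
  · have h' : Mor O K H x ∧ Ix O O' (cj k L) K := ⟨h.1, (ix_cj_mem hk).2 h.2⟩
    unfold wres
    rw [if_pos h, if_pos h']
    have h1 : x⁻¹ * k * x ∈ H := by
      apply h.1.1
      rw [mem_cj]
      simpa [mul_assoc] using hk
    have h2 : tgt O' (cj k L) H x = cj (x⁻¹ * k * x) (tgt O' L H x) := by
      unfold tgt
      rw [← hull_cj, cj_of_mem h1, cj_cj, cj_cj]
      congr 2
      simp [mul_assoc]
    have hm : Mor O' L (tgt O' L H x) x := mor_tgt h.1 h.2.2.1
    have hm' : Mor O' (cj k L) (tgt O' (cj k L) H x) x := mor_tgt h'.1 h'.2.2.1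
    rw [h2] at hm' ⊢
    rw [n.2.2 _ h1, N.res_comp _ _ _ _ _ hm' (mor_cj _ _), N.res_comp _ _ _ _ _ (mor_cj k L) hm]
    congr 2
    simp [mul_assoc]
  · have h' : ¬ (Mor O K H x ∧ Ix O O' (cj k L) K) := fun h1 =>
      h ⟨h1.1, (ix_cj_mem hk).1 h1.2⟩
    unfold wres
    rw [if_neg h, if_neg h', map_zero]

/-- the right adjoint of restriction -/
noncomputable def WW (O : TransferSystem G) (N : CMod O') : CMod O where
  obj H := WObj O N H
  res K H x :=
    { toFun := fun n => ⟨wres (O := O) N K H x n.1, wres_mem N K H x n⟩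
      map_add' := fun m n => by
        apply Subtype.ext
        funext L
        change wres (O := O) N K H x (m.1 + n.1) L = wres (O := O) N K H x m.1 L +
          wres (O := O) N K H x n.1 L
        unfold wres
        split_ifs
        · exact map_add _ _ _
        · rw [add_zero]
      map_smul' := fun m n => by
        apply Subtype.ext
        funext L
        change wres (O := O) N K H x (m • n.1) L = m • wres (O := O) N K H x n.1 L
        unfold wres
        split_ifs
        · exact map_smul _ _ _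
        · rw [smul_zero] }
  res_self K l hl n := by
    apply Subtype.ext
    funext L
    change wres (O := O) N K K l n.1 L = n.1 L
    by_cases h : Ix O O' L K
    · unfold wres
      rw [if_pos ⟨mor_self hl, h⟩]
      have h1 : tgt O' L K l = cj l⁻¹ L := by
        unfold tgt
        apply hull_of_rel
        exact ((ix_cj_mem (K.inv_mem hl)).2 h).1
      rw [h1, n.2.2 _ (K.inv_mem hl), N.res_comp _ _ _ _ _ _ (mor_cj _ _), mul_inv_cancel,
        N.res_one]
      have := mor_cj' (O := O') l⁻¹ L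
      rwa [inv_inv] at this
    · rw [n.2.1 L h]
      exact if_neg fun h1 => h h1.2
  res_comp K H J x y hx hy n := by
    apply Subtype.ext
    funext L
    change wres (O := O) N K H x (wres (O := O) N H J y n.1) L = wres (O := O) N K J (x * y) n.1 L
    by_cases h : Ix O O' L K
    · unfold wres
      rw [if_pos ⟨hx, h⟩, if_pos ⟨hy, ix_tgt hx h⟩, if_pos ⟨hx.comp hy, h⟩,
        N.res_comp _ _ _ _ _ (mor_tgt hx h.2.1) (mor_tgt hy (ix_tgt hx h).2.1)]
      have h1 : tgt O' (tgt O' L H x) J y = tgt O' L J (x * y) := by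
        unfold tgt
        rw [mul_inv_rev, ← cj_cj]
        have h2 : cj x⁻¹ L ≤ H := (cj_le_cj h.2.1).trans hx.1
        refine (hull_eq_of_dense (dense_hull h2).cj ?_).symm
        exact (cj_le_cj (hull_le_top h2)).trans hy.1
      rw [h1]
    · rw [show wres (O := O) N K J (x * y) n.1 L = 0 from if_neg fun h1 => h h1.2]
      exact if_neg fun h1 => h h1.2

/-- evaluation of elements of `WW` -/
noncomputable def wev {N : CMod O'} {H : Subgroup G} (L : Subgroup G) :
    (WW O N).obj H →ₗ[ℚ] N.obj L where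
  toFun n := (show WObj O N H from n).1 L
  map_add' _ _ := rfl
  map_smul' _ _ := rfl

def wmk {N : CMod O'} {H : Subgroup G} (n : ∀ L, N.obj L) (h : n ∈ WObj O N H) :
    (WW O N).obj H := (⟨n, h⟩ : WObj O N H)

lemma wev_wmk {N : CMod O'} {H : Subgroup G} (n : ∀ L, N.obj L) (h : n ∈ WObj O N H)
    (L : Subgroup G) : wev L (wmk n h) = n L := rfl

lemma wev_of_not {N : CMod O'} {H : Subgroup G} (n : (WW O N).obj H) {L : Subgroup G}
    (h : ¬ Ix O O' L H) : wev L n = 0 := (show WObj O N H from n).2.1 L h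

lemma wev_cj {N : CMod O'} {H : Subgroup G} (n : (WW O N).obj H) {k : G} (hk : k ∈ H)
    (L : Subgroup G) : wev (cj k L) n = N.res (cj k L) L k (wev L n) :=
  (show WObj O N H from n).2.2 k hk L

lemma wev_ext {N : CMod O'} {H : Subgroup G} {m n : (WW O N).obj H}
    (h : ∀ L, Ix O O' L H → wev L m = wev L n) : m = n := by
  apply Subtype.ext
  funext L
  by_cases h1 : Ix O O' L H
  · exact h L h1
  · exact (wev_of_not m h1).trans (wev_of_not n h1).symm

lemma wev_res {N : CMod O'} {K H : Subgroup G} {x : G} (hx : Mor O K H x) (n : (WW O N).obj H)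
    {L : Subgroup G} (hL : Ix O O' L K) : wev L ((WW O N).res K H x n) =
      N.res L (tgt O' L H x) x (wev (tgt O' L H x) n) := if_pos ⟨hx, hL⟩

lemma WWmap_mem {A B : CMod O'} (φ : A.Hom B) {H : Subgroup G} (n : (WW O A).obj H) :
    (fun L => φ.app L (wev L n)) ∈ WObj O B H := by
  refine ⟨fun L h => ?_, fun k hk L => ?_⟩
  · change φ.app L (wev L n) = 0
    rw [wev_of_not n h, map_zero]
  · change φ.app _ (wev (cj k L) n) = B.res _ _ _ (φ.app L (wev L n))
    rw [wev_cj n hk, φ.nat _ _ _ (mor_cj k L)]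

/-- `WW` on morphisms -/
noncomputable def WWmap (O : TransferSystem G) {A B : CMod O'} (φ : A.Hom B) :
    (WW O A).Hom (WW O B) where
  app H :=
    { toFun := fun n => wmk (fun L => φ.app L (wev L n)) (WWmap_mem φ n)
      map_add' := fun m n => wev_ext fun L _ => by
        rw [map_add, wev_wmk, wev_wmk, wev_wmk, map_add, map_add]
      map_smul' := fun m n => wev_ext fun L _ => by
        rw [RingHom.id_apply, map_smul, wev_wmk, wev_wmk, map_smul, map_smul] }
  nat K H x hx n := by
    apply wev_ext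
    intro L hL
    rw [wev_res hx _ hL]
    change φ.app L (wev L ((WW O A).res K H x n)) = B.res _ _ _ (φ.app _ (wev _ n))
    rw [wev_res hx _ hL, φ.nat _ _ _ (mor_tgt hx hL.2.1)]

lemma wev_map {A B : CMod O'} (φ : A.Hom B) {H : Subgroup G} (n : (WW O A).obj H)
    (L : Subgroup G) : wev L ((WWmap O φ).app H n) = φ.app L (wev L n) := rfl

lemma WWmap_surjective {A B : CMod O'} (φ : A.Hom B) (h : ∀ K, Surjective (φ.app K))
    (H : Subgroup G) : Surjective ((WWmap O φ).app H) := by
  classical
  intro n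
  have h1 : ∀ L, ∃ s : A.obj L, φ.app L s = wev L n ∧ (¬ Ix O O' L H → s = 0) := by
    intro L
    by_cases hL : Ix O O' L H
    · obtain ⟨s, hs⟩ := h L (wev L n)
      exact ⟨s, hs, fun h => absurd hL h⟩
    · exact ⟨0, by rw [map_zero, wev_of_not n hL], fun _ => rfl⟩
  choose s hs hs0 using h1
  have hH : (Nat.card H : ℚ) ≠ 0 := by
    exact_mod_cast Nat.card_pos.ne'
  let t : ∀ L, A.obj L := fun L => (Nat.card H : ℚ)⁻¹ •
    ∑ k : H, A.res L (cj (k : G)⁻¹ L) k (s (cj (k : G)⁻¹ L))
  have ht : t ∈ WObj O A H := by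
    refine ⟨fun L hL => ?_, fun k hk L => ?_⟩
    · have : ∀ k : H, s (cj (k : G)⁻¹ L) = 0 := by
        intro k
        apply hs0
        rw [ix_cj_mem (H.inv_mem k.2)]
        exact hL
      change (Nat.card H : ℚ)⁻¹ • ∑ k : H, _ = 0
      rw [Finset.sum_eq_zero, smul_zero]
      intro k _
      rw [this, map_zero]
    · change (Nat.card H : ℚ)⁻¹ • ∑ l : H, _ = A.res _ _ _ ((Nat.card H : ℚ)⁻¹ • ∑ l : H, _)
      rw [map_smul, map_sum]
      congr 1
      refine (Fintype.sum_equiv (Equiv.mulLeft (⟨k, hk⟩ : H)) _ _ fun l => ?_).symm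
      have h2 : ((Equiv.mulLeft (⟨k, hk⟩ : H) l : H) : G) = k * l := rfl
      rw [h2]
      have h3 : cj (k * (l : G))⁻¹ (cj k L) = cj (l : G)⁻¹ L := by
        rw [cj_cj]
        congr 1
        simp [mul_assoc]
      rw [h3]
      have h4 : Mor O' L (cj (l : G)⁻¹ L) (l : G) := by
        have := mor_cj' (O := O') (l : G)⁻¹ L
        rwa [inv_inv] at this
      rw [A.res_comp _ _ _ _ _ (mor_cj k L) h4]
  refine ⟨wmk t ht, wev_ext fun L _ => ?_⟩
  rw [wev_map, wev_wmk]
  change φ.app L ((Nat.card H : ℚ)⁻¹ • ∑ l : H, _) = _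
  rw [map_smul, map_sum]
  have h5 : ∀ k : H, φ.app L (A.res L (cj (k : G)⁻¹ L) k (s (cj (k : G)⁻¹ L))) = wev L n := by
    intro k
    have h4 : Mor O' L (cj (k : G)⁻¹ L) (k : G) := by
      have := mor_cj' (O := O') (k : G)⁻¹ L
      rwa [inv_inv] at this
    rw [φ.nat _ _ _ h4, hs, wev_cj n (H.inv_mem k.2), B.res_comp _ _ _ _ _ h4 (mor_cj _ _),
      mul_inv_cancel, B.res_one]
  rw [Finset.sum_congr rfl fun k _ => h5 k, Finset.sum_const, Finset.card_univ,
    ← Nat.card_eq_fintype_card, ← Nat.cast_smul_eq_nsmul ℚ, smul_smul, inv_mul_cancel₀ hH,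
    one_smul]

variable (O O') in
open scoped Classical in
/-- the unit of the adjunction -/
noncomputable def alphaFun (P : CMod O) (H : Subgroup G)
    (n : P.obj H) (L : Subgroup G) : P.obj L :=
  if Ix O O' L H then P.res L H 1 n else 0

lemma alphaFun_pos {P : CMod O} {H : Subgroup G} (n : P.obj H) {L : Subgroup G}
    (h : Ix O O' L H) : alphaFun O O' P H n L = P.res L H 1 n := if_pos h

lemma alphaFun_neg {P : CMod O} {H : Subgroup G} (n : P.obj H) {L : Subgroup G}
    (h : ¬ Ix O O' L H) : alphaFun O O' P H n L = 0 := if_neg h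

lemma alphaFun_mem (h : ∀ K H, O.rel K H → O'.rel K H) (P : CMod O) (H : Subgroup G)
    (n : P.obj H) : alphaFun O O' P H n ∈ WObj O (resC h P) H := by
  refine ⟨fun L hL => if_neg hL, fun k hk L => ?_⟩
  change alphaFun O O' P H n (cj k L) = P.res (cj k L) L k (alphaFun O O' P H n L)
  by_cases hL : Ix O O' L H
  · have hL' : Ix O O' (cj k L) H := (ix_cj_mem hk).2 hL
    rw [alphaFun_pos n hL, alphaFun_pos n hL', P.res_comp _ _ _ _ _ (mor_cj k L) (mor_one.2 hL.2),
      mul_one]
    have h1 := P.res_mul_mem (mor_one.2 hL'.2) hk n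
    rw [one_mul] at h1
    exact h1.symm
  · have hL' : ¬ Ix O O' (cj k L) H := fun h1 => hL ((ix_cj_mem hk).1 h1)
    rw [alphaFun_neg n hL, alphaFun_neg n hL', map_zero]

/-- the unit of the adjunction -/
noncomputable def alpha (h : ∀ K H, O.rel K H → O'.rel K H) (P : CMod O) :
    P.Hom (WW O (resC h P)) where
  app H :=
    { toFun := fun n => wmk (alphaFun O O' P H n) (alphaFun_mem h P H n)
      map_add' := fun m n => wev_ext fun L hL => by
        rw [map_add]
        change alphaFun O O' P H (m + n) L = alphaFun O O' P H m L + alphaFun O O' P H n L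
        rw [alphaFun_pos _ hL, alphaFun_pos _ hL, alphaFun_pos _ hL, map_add]
      map_smul' := fun m n => wev_ext fun L hL => by
        rw [RingHom.id_apply, map_smul]
        change alphaFun O O' P H (m • n) L = m • alphaFun O O' P H n L
        rw [alphaFun_pos _ hL, alphaFun_pos _ hL, map_smul] }
  nat K H x hx n := by
    apply wev_ext
    intro L hL
    rw [wev_res hx _ hL]
    change alphaFun O O' P K (P.res K H x n) L =
      P.res _ _ _ (alphaFun O O' P H n (tgt O' L H x))
    rw [alphaFun_pos _ hL, alphaFun_pos _ (ix_tgt hx hL),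
      P.res_comp _ _ _ _ _ ((mor_tgt hx hL.2.1).mono h) (mor_one.2 (ix_tgt hx hL).2), mul_one,
      P.res_comp _ _ _ _ _ (mor_one.2 hL.2) hx n, one_mul]

lemma alpha_ev (h : ∀ K H, O.rel K H → O'.rel K H) (P : CMod O) (H : Subgroup G)
    (n : P.obj H) : wev H ((alpha h P).app H n) = n := by
  change alphaFun O O' P H n H = n
  rw [alphaFun_pos _ (Ix.refl H)]
  exact P.res_one H n

/-- the counit of the adjunction -/
noncomputable def gam (h : ∀ K H, O.rel K H → O'.rel K H) (A : CMod O') :
    (resC h (WW O A)).Hom A where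
  app H := wev H
  nat K H x hx n := by
    refine (wev_res (hx.mono h) n (Ix.refl K)).trans ?_
    have : tgt O' K H x = H := hull_of_dense hx
    rw [this]
    rfl

lemma resC_projective (h : ∀ K H, O.rel K H → O'.rel K H) {P : CMod O} (hP : P.IsProjective) :
    (resC h P).IsProjective := by
  intro A B p hp f
  obtain ⟨l, hl⟩ := hP (WW O A) (WW O B) (WWmap O p) (WWmap_surjective p hp)
    ((WWmap O f).comp (alpha h P))
  refine ⟨(gam h A).comp (resMap h l), fun K z => ?_⟩
  have h1 : ∀ z : P.obj K, p.app K (wev K (l.app K z)) = f.app K z := by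
    intro z
    rw [← wev_map, hl, CMod.Hom.comp_app, wev_map, alpha_ev]
  exact h1 z

lemma resC_pdLE (h : ∀ K H, O.rel K H → O'.rel K H) : ∀ (n : ℕ) (M : CMod O), M.PdLE n →
    (resC h M).PdLE n
  | 0, _, hM => resC_projective h hM
  | n + 1, _, ⟨P, K, i, p, hP, hs, hK⟩ =>
    ⟨resC h P, resC h K, resMap h i, resMap h p, resC_projective h hP, hs, resC_pdLE h n K hK⟩

end Pool.Agent.Helper20_Mackey
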