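import Pool.Agent.Helper20_Mackey.EtaInj

/-!
# Transport of projective dimension between Mackey functors and modules over the category of
dense maps
-/

set_option autoImplicit false
set_option linter.unusedSectionVars false

open MulAction Function

namespace Pool.Agent.Helper20_Mackey

variable {G : Type} [Group G] [Finite G] {O : TransferSystem G}

/-- composition -/
def Mackey.Hom.comp {A B C : Mackey O} (g : B.Hom C) (f : A.Hom B) : A.Hom C where
  app X := g.app X ∘ₗ f.app X
  naturality a k hk := by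
    rw [LinearMap.comp_assoc, f.naturality, ← LinearMap.comp_assoc, g.naturality,
      LinearMap.comp_assoc]

lemma Mackey.Hom.comp_app {A B C : Mackey O} (g : B.Hom C) (f : A.Hom B) (X : FinGSet G)
    (m : A.obj X) : (g.comp f).app X m = g.app X (f.app X m) := rfl

lemma CMod.Hom.comp_app {A B C : CMod O} (g : B.Hom C) (f : A.Hom B) (K : Subgroup G)
    (m : A.obj K) : (g.comp f).app K m = g.app K (f.app K m) := rfl

lemma Mackey.Hom.exists_inv {A B : Mackey O} (e : A.Hom B) (he : ∀ X, Bijective (e.app X)) :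
    ∃ e' : B.Hom A, ∀ X, (∀ m, e.app X (e'.app X m) = m) ∧ ∀ m, e'.app X (e.app X m) = m := by
  have h1 : ∀ (X : FinGSet G) (m : B.obj X),
      e.app X ((LinearEquiv.ofBijective (e.app X) (he X)).symm m) = m :=
    fun K m => LinearEquiv.apply_symm_apply (LinearEquiv.ofBijective (e.app K) (he K)) m
  refine ⟨{ app := fun K => (LinearEquiv.ofBijective (e.app K) (he K)).symm.toLinearMap
            naturality := ?_ }, fun K => ⟨fun m => ?_, fun m => ?_⟩⟩
  · intro X U Y a f hf
    apply LinearMap.ext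
    intro m
    apply (he Y).1
    rw [LinearMap.comp_apply, LinearMap.comp_apply, e.app_span]
    exact (h1 Y _).trans (congrArg _ (h1 X m).symm)
  · exact LinearEquiv.apply_symm_apply (LinearEquiv.ofBijective (e.app K) (he K)) m
  · exact LinearEquiv.symm_apply_apply (LinearEquiv.ofBijective (e.app K) (he K)) m

lemma CMod.Hom.exists_inv {A B : CMod O} (e : A.Hom B) (he : ∀ X, Bijective (e.app X)) :
    ∃ e' : B.Hom A, ∀ X, (∀ m, e.app X (e'.app X m) = m) ∧ ∀ m, e'.app X (e.app X m) = m := by
  have h1 : ∀ (X : Subgroup G) (m : B.obj X),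
      e.app X ((LinearEquiv.ofBijective (e.app X) (he X)).symm m) = m :=
    fun K m => LinearEquiv.apply_symm_apply (LinearEquiv.ofBijective (e.app K) (he K)) m
  refine ⟨{ app := fun K => (LinearEquiv.ofBijective (e.app K) (he K)).symm.toLinearMap
            nat := ?_ }, fun K => ⟨fun m => ?_, fun m => ?_⟩⟩
  · intro K H x hx m
    apply (he K).1
    rw [e.nat K H x hx]
    exact (h1 K _).trans (congrArg _ (h1 H m).symm)
  · exact LinearEquiv.apply_symm_apply (LinearEquiv.ofBijective (e.app K) (he K)) m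
  · exact LinearEquiv.symm_apply_apply (LinearEquiv.ofBijective (e.app K) (he K)) m

/-- a bijective morphism transports projective dimension -/
lemma Mackey.PdLE.of_iso {n : ℕ} {A B : Mackey O} (e : A.Hom B) (he : ∀ K, Bijective (e.app K))
    (h : A.PdLE n) : B.PdLE n := by
  obtain ⟨e', he'⟩ := e.exists_inv he
  cases n with
  | zero =>
    intro M N p hp h'
    obtain ⟨l, hl⟩ := h M N p hp (h'.comp e)
    refine ⟨l.comp e', fun X m => ?_⟩
    change p.app X (l.app X (e'.app X m)) = _
    rw [hl]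
    change h'.app X (e.app X (e'.app X m)) = _
    rw [(he' X).1]
  | succ n =>
    obtain ⟨P, K, i, p, hP, hs, hK⟩ := h
    refine ⟨P, K, i, e.comp p, hP, fun X => ⟨(hs X).1, (he X).2.comp (hs X).2.1, fun m => ?_⟩, hK⟩
    rw [← (hs X).2.2 m]
    change e.app X (p.app X m) = 0 ↔ _
    constructor
    · intro h0
      apply (he X).1
      rw [h0, map_zero]
    · intro h0
      rw [h0, map_zero]

lemma nsmul_mem_range {V W : Type*} [AddCommGroup V] [AddCommGroup W] [Module ℚ V] [Module ℚ W]
    (f : V →ₗ[ℚ] W) {w : W} (h : (Nat.card G) • w ∈ LinearMap.range f) :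
    w ∈ LinearMap.range f := by
  have hG : (Nat.card G : ℚ) ≠ 0 := by
    exact_mod_cast Nat.card_pos.ne'
  have h2 := Submodule.smul_mem _ ((Nat.card G : ℚ)⁻¹) h
  rw [← Nat.cast_smul_eq_nsmul ℚ, smul_smul, inv_mul_cancel₀ hG, one_smul] at h2
  exact h2

/-! ### Exactness -/

lemma GGmap_surjective {A B : CMod O} (φ : A.Hom B) (h : ∀ K, Surjective (φ.app K))
    (X : FinGSet G) : Surjective ((GGmap φ).app X) := by
  intro n
  apply nsmul_mem_range (G := G) ((GGmap φ).app X)
  rw [averaging]
  apply Submodule.sum_mem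
  intro x _
  apply Submodule.sum_mem
  intro K _
  apply Submodule.smul_of_tower_mem
  obtain ⟨z, hz⟩ := h K (evl x K n)
  rw [← hz, ← GGmap_dl, ← (GGmap φ).app_up]
  exact ⟨_, rfl⟩

lemma GGmap_exact {A B C : CMod O} {i : A.Hom B} {p : B.Hom C} (h : CMod.IsShortExact i p) :
    Mackey.IsShortExact (GGmap i) (GGmap p) := by
  intro X
  refine ⟨?_, GGmap_surjective p (fun K => (h K).2.1) X, ?_⟩
  · intro m n hmn
    apply evl_ext
    intro x K _
    apply (h K).1
    rw [← evl_GGmap, ← evl_GGmap, hmn]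
  · intro m
    constructor
    · intro hm
      have h1 : ∀ (x : X) (K : Subgroup G), ∃ k, i.app K k = evl x K m := by
        intro x K
        rw [← (h K).2.2, ← evl_GGmap, hm, map_zero]
      choose k hk using h1
      have hk' : k ∈ GObj A X := by
        refine ⟨fun x K hx => ?_, fun g x K => ?_⟩
        · apply (h K).1
          rw [hk, evl_of_not_rel _ hx, map_zero]
        · apply (h _).1
          rw [hk, evl_smul, i.nat _ _ _ (mor_cj g K), hk]
      refine ⟨fam k hk', evl_ext fun x K _ => ?_⟩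
      rw [evl_GGmap, evl_fam, hk]
    · rintro ⟨k, rfl⟩
      apply evl_ext
      intro x K _
      rw [evl_GGmap, evl_GGmap, map_zero]
      exact ((h K).2.2 _).2 ⟨_, rfl⟩

lemma dl_eta_inj {M : Mackey O} {K : Subgroup G} (z : M.Br K) :
    ∃ m : M.obj (orb K), (etaHom M).app (orb K) m = dl (FF M) K z :=
  eta_surjective M (orb K) (dl (FF M) K z)

lemma dl_injective (N : CMod O) (K : Subgroup G) : Injective (dl N K) := by
  intro a b h
  rw [← evl_dl_self K a, ← evl_dl_self K b, h]

lemma FFmap_exact {A B C : Mackey O} {i : A.Hom B} {p : B.Hom C} (h : Mackey.IsShortExact i p) :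
    CMod.IsShortExact (FFmap i) (FFmap p) := by
  intro K
  refine ⟨?_, ?_, ?_⟩
  · rw [← LinearMap.ker_eq_bot, LinearMap.ker_eq_bot']
    intro z hz
    obtain ⟨m, hm⟩ := eta_surjective A (orb K) (dl (FF A) K z)
    have h1 := eta_map i m
    rw [hm, GGmap_dl, hz, map_zero] at h1
    have h2 : i.app (orb K) m = 0 := by
      apply eta_injective B
      rw [← h1, map_zero]
    have h3 : m = 0 := by
      apply (h (orb K)).1
      rw [h2, map_zero]
    rw [h3, map_zero] at hm
    apply dl_injective (FF A) K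
    rw [← hm, map_zero]
  · intro z
    obtain ⟨m, rfl⟩ := Submodule.Quotient.mk_surjective _ z
    obtain ⟨m', rfl⟩ := (h (orb K)).2.1 m
    exact ⟨Submodule.Quotient.mk m', rfl⟩
  · intro z
    constructor
    · intro hz
      obtain ⟨m, hm⟩ := eta_surjective B (orb K) (dl (FF B) K z)
      have h1 := eta_map p m
      rw [hm, GGmap_dl, hz, map_zero] at h1
      have h2 : p.app (orb K) m = 0 := by
        apply eta_injective C
        rw [← h1, map_zero]
      obtain ⟨k, rfl⟩ := ((h (orb K)).2.2 m).1 h2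
      rw [← eta_map] at hm
      refine ⟨evl (pt K 1) K ((etaHom A).app (orb K) k), ?_⟩
      rw [← evl_GGmap, hm, evl_dl_self]
    · rintro ⟨k, rfl⟩
      obtain ⟨m, rfl⟩ := Submodule.Quotient.mk_surjective _ k
      have h1 : p.app (orb K) (i.app (orb K) m) = 0 := ((h (orb K)).2.2 _).2 ⟨m, rfl⟩
      change (Submodule.Quotient.mk (p.app (orb K) (i.app (orb K) m)) : C.Br K) = 0
      rw [h1]
      rfl

/-! ### Projectives -/

lemma FF_projective {P : Mackey O} (hP : P.IsProjective) : (FF P).IsProjective := by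
  intro A B p hp h
  obtain ⟨l, hl⟩ := hP (GG A) (GG B) (GGmap p) (GGmap_surjective p hp)
    ((GGmap h).comp (etaHom P))
  refine ⟨(epsHom A).comp (FFmap l), fun K z => ?_⟩
  obtain ⟨m, rfl⟩ := Submodule.Quotient.mk_surjective _ z
  change p.app K (evl (pt K 1) K (l.app (orb K) m)) = _
  rw [← evl_GGmap, hl, Mackey.Hom.comp_app, evl_GGmap, evl_eta, P.val_self]
  rw [stabilizer_pt_one]
  exact O.refl K

lemma GG_projective {P : CMod O} (hP : P.IsProjective) : (GG P).IsProjective := by
  intro A B p hp h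
  obtain ⟨δ, hδ⟩ := (epsHom P).exists_inv (eps_bijective P)
  have hp' : ∀ K, Surjective ((FFmap p).app K) := by
    intro K z
    obtain ⟨m, rfl⟩ := Submodule.Quotient.mk_surjective _ z
    obtain ⟨m', rfl⟩ := hp (orb K) m
    exact ⟨Submodule.Quotient.mk m', rfl⟩
  obtain ⟨l, hl⟩ := hP (FF A) (FF B) (FFmap p) hp' ((FFmap h).comp δ)
  obtain ⟨e, he⟩ := (etaHom A).exists_inv (eta_bijective A)
  refine ⟨e.comp (GGmap l), fun X n => ?_⟩
  apply eta_injective B
  rw [← eta_map, Mackey.Hom.comp_app, (he X).1, ← eta_map]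
  apply evl_ext
  intro x K hx
  rw [evl_GGmap, evl_GGmap, evl_GGmap, hl, CMod.Hom.comp_app]
  congr 1
  apply eps_injective P K
  rw [evl_eta _ hx, eps_val_rel hx]
  exact (hδ K).1 _

lemma FF_pdLE : ∀ (n : ℕ) (M : Mackey O), M.PdLE n → (FF M).PdLE n
  | 0, _, h => FF_projective h
  | n + 1, _, ⟨P, K, i, p, hP, hs, hK⟩ =>
    ⟨FF P, FF K, FFmap i, FFmap p, FF_projective hP, FFmap_exact hs, FF_pdLE n K hK⟩

lemma GG_pdLE : ∀ (n : ℕ) (M : CMod O), M.PdLE n → (GG M).PdLE n
  | 0, _, h => GG_projective h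
  | n + 1, _, ⟨P, K, i, p, hP, hs, hK⟩ =>
    ⟨GG P, GG K, GGmap i, GGmap p, GG_projective hP, GGmap_exact hs, GG_pdLE n K hK⟩

/-- the equivalence preserves the global dimension -/
theorem pdLE_iff (O : TransferSystem G) (n : ℕ) :
    (∀ M : Mackey O, M.PdLE n) ↔ ∀ N : CMod O, N.PdLE n := by
  constructor
  · intro h N
    exact CMod.PdLE.of_iso (epsHom N) (eps_bijective N) (FF_pdLE n _ (h (GG N)))
  · intro h M
    obtain ⟨e, he⟩ := (etaHom M).exists_inv (eta_bijective M)
    refine Mackey.PdLE.of_iso e (fun X => ?_) (GG_pdLE n _ (h (FF M)))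
    exact ⟨fun a b hab => by rw [← (he X).1 a, ← (he X).1 b, hab],
      fun m => ⟨_, (he X).2 m⟩⟩

end Pool.Agent.Helper20_Mackey
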