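import Pool.Agent.Helper20_Mackey.GFun
import Pool.Agent.Helper20_Mackey.Brauer

/-!
# The unit and the counit
-/

set_option autoImplicit false
set_option linter.unusedSectionVars false

open MulAction Function

namespace Pool.Agent.Helper20_Mackey

variable {G : Type} [Group G] [Finite G] {O : TransferSystem G}

/-- evaluation of a family -/
noncomputable def evl {N : CMod O} {X : FinGSet G} (x : X) (K : Subgroup G) :
    (GG N).obj X →ₗ[ℚ] N.obj K where
  toFun n := (show GObj N X from n).1 x K
  map_add' _ _ := rfl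
  map_smul' _ _ := rfl

/-- build a family -/
def fam {N : CMod O} {X : FinGSet G} (n : ∀ (_ : X) (K : Subgroup G), N.obj K)
    (h : n ∈ GObj N X) : (GG N).obj X := (⟨n, h⟩ : GObj N X)

lemma evl_fam {N : CMod O} {X : FinGSet G} (n : ∀ (_ : X) (K : Subgroup G), N.obj K)
    (h : n ∈ GObj N X) (x : X) (K : Subgroup G) : evl x K (fam n h) = n x K := rfl

lemma evl_ext {N : CMod O} {X : FinGSet G} {m n : (GG N).obj X}
    (h : ∀ (x : X) K, O.rel K (stabilizer G x) → evl x K m = evl x K n) : m = n :=
  gspan_ext h

lemma evl_of_not_rel {N : CMod O} {X : FinGSet G} (n : (GG N).obj X) {x : X} {K : Subgroup G}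
    (h : ¬ O.rel K (stabilizer G x)) : evl x K n = 0 := (show GObj N X from n).2.1 x K h

lemma evl_smul {N : CMod O} {X : FinGSet G} (n : (GG N).obj X) (g : G) (x : X)
    (K : Subgroup G) : evl (g • x) (cj g K) n = N.res (cj g K) K g (evl x K n) :=
  (show GObj N X from n).2.2 g x K

open scoped Classical in
lemma evl_span {N : CMod O} {X U Y : FinGSet G} (a : U →[G] X) (f : U →[G] Y)
    (hf : Admissible O f) (n : (GG N).obj X) {y : Y} {K : Subgroup G}
    (h : O.rel K (stabilizer G y)) : evl y K ((GG N).span a f hf n) =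
    ∑ u : U, if f u = y ∧ K ≤ stabilizer G u then
    N.res K (hull O K (stabilizer G (a u))) 1 (evl (a u) (hull O K (stabilizer G (a u))) n)
    else 0 := gval_of_rel N a f _ y K h

open scoped Classical in
lemma evl_push {N : CMod O} {U Y : FinGSet G} (f : U →[G] Y)
    (hf : Admissible O f) (n : (GG N).obj U) (y : Y) (K : Subgroup G) :
    evl y K ((GG N).push f hf n) = ∑ u : U, if f u = y then evl u K n else 0 := by
  by_cases h : O.rel K (stabilizer G y)
  · unfold Mackey.push
    rw [evl_span _ _ _ _ h]
    apply Finset.sum_congr rfl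
    intro u _
    by_cases h1 : f u = y
    · by_cases h2 : K ≤ stabilizer G u
      · rw [if_pos ⟨h1, h2⟩, if_pos h1]
        have h3 : O.rel K (stabilizer G u) := by
          apply rel_of_le h _ h2
          rw [← h1]
          exact stab_le f u
        change N.res K (hull O K (stabilizer G u)) 1 (evl u (hull O K (stabilizer G u)) n) = _
        rw [hull_of_rel h3, N.res_one]
      · rw [if_neg (fun h => h2 h.2), if_pos h1, evl_of_not_rel]
        exact fun h3 => h2 (O.le _ _ h3)
    · rw [if_neg (fun h => h1 h.1), if_neg h1]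
  · rw [evl_of_not_rel _ h]
    symm
    apply Finset.sum_eq_zero
    intro u _
    by_cases h1 : f u = y
    · rw [if_pos h1, evl_of_not_rel]
      intro h2
      apply h
      rw [← h1]
      exact O.trans _ _ _ h2 (hf u)
    · rw [if_neg h1]

open scoped Classical in
lemma evl_up {N : CMod O} {X : FinGSet G} {x : X} {L : Subgroup G}
    (h : O.rel L (stabilizer G x)) (n : (GG N).obj (orb L)) (y : X) (K : Subgroup G) :
    (Nat.card L) • evl y K ((GG N).up x L n) =
      ∑ g : G, if g • x = y then evl (pt L g) K n else 0 := by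
  rw [Mackey.up_eq _ h, evl_push, sum_orb]
  rfl

lemma evl_dn {N : CMod O} {X : FinGSet G} {x : X} {K : Subgroup G}
    (h : K ≤ stabilizer G x) (n : (GG N).obj X) :
    evl (pt K 1) K ((GG N).dn x K n) =
      N.res K (hull O K (stabilizer G x)) 1 (evl x (hull O K (stabilizer G x)) n) := by
  classical
  rw [Mackey.dn_eq _ h]
  unfold Mackey.pull
  rw [evl_span]
  · rw [Finset.sum_eq_single (pt K 1)]
    · rw [if_pos ⟨rfl, (stabilizer_pt_one K).ge⟩, ev_pt, one_smul]
    · intro u _ hu
      rw [if_neg]
      rintro ⟨h1, -⟩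
      exact hu h1
    · intro h1
      exact absurd (Finset.mem_univ _) h1
  · rw [stabilizer_pt_one]
    exact O.refl K

lemma GGmap_mem {A B : CMod O} (φ : A.Hom B) {X : FinGSet G} (n : (GG A).obj X) :
    (fun (x : X) (K : Subgroup G) => φ.app K (evl x K n)) ∈ GObj B X := by
  refine ⟨fun x K h => ?_, fun g x K => ?_⟩
  · change φ.app K (evl x K n) = 0
    rw [evl_of_not_rel n h, map_zero]
  · change φ.app _ (evl (g • x) (cj g K) n) = B.res _ _ _ (φ.app K (evl x K n))
    rw [evl_smul, φ.nat _ _ _ (mor_cj g K)]

/-- action of `GG` on morphisms -/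
noncomputable def GGmap {A B : CMod O} (φ : A.Hom B) : (GG A).Hom (GG B) where
  app X :=
    { toFun := fun n => fam (fun x K => φ.app K (evl x K n)) (GGmap_mem φ n)
      map_add' := fun m n => evl_ext fun x K _ => by
        rw [map_add, evl_fam, evl_fam, evl_fam, map_add, map_add]
      map_smul' := fun c n => evl_ext fun x K _ => by
        rw [RingHom.id_apply, map_smul, evl_fam, evl_fam, map_smul, map_smul] }
  naturality := by
    classical
    intro X U Y a f hf
    apply LinearMap.ext
    intro n
    apply evl_ext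
    intro y K h
    change φ.app K (evl y K ((GG A).span a f hf n)) = evl y K ((GG B).span a f hf _)
    rw [evl_span _ _ _ _ h, evl_span _ _ _ _ h, map_sum]
    apply Finset.sum_congr rfl
    intro u _
    by_cases h1 : f u = y ∧ K ≤ stabilizer G u
    · rw [if_pos h1, if_pos h1, φ.nat _ _ _ (mor_one.2 (dense_hull (h1.2.trans (stab_le a u))))]
      rfl
    · rw [if_neg h1, if_neg h1, map_zero]

lemma evl_GGmap {A B : CMod O} (φ : A.Hom B) {X : FinGSet G} (x : X) (K : Subgroup G)
    (n : (GG A).obj X) : evl x K ((GGmap φ).app X n) = φ.app K (evl x K n) := rfl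

/-- a representative of a coset -/
noncomputable def rep {L : Subgroup G} (q : orb L) : G := Classical.choose (exists_pt q)

lemma pt_rep {L : Subgroup G} (q : orb L) : pt L (rep q) = q := (Classical.choose_spec (exists_pt q)).symm

open scoped Classical in
/-- the delta family -/
noncomputable def dlf (N : CMod O) (L : Subgroup G) (z : N.obj L) (q : orb L) (K : Subgroup G) :
    N.obj K := if K = cj (rep q) L then N.res K L (rep q) z else 0

open scoped Classical in
lemma dlf_pt (N : CMod O) (L : Subgroup G) (z : N.obj L) (g : G) (K : Subgroup G) :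
    dlf N L z (pt L g) K = if K = cj g L then N.res K L g z else 0 := by
  have h1 := pt_rep (pt L g)
  rw [eq_comm, pt_eq_iff] at h1
  have h2 : rep (pt L g) = g * (g⁻¹ * rep (pt L g)) := by simp
  have h3 : cj (rep (pt L g)) L = cj g L := by
    rw [h2, ← cj_cj, cj_of_mem h1]
  unfold dlf
  rw [h3]
  by_cases h : K = cj g L
  · rw [if_pos h, if_pos h]
    conv_lhs => rw [h2]
    rw [N.res_mul_mem _ h1]
    rw [h]
    exact mor_cj g L
  · rw [if_neg h, if_neg h]

lemma dlf_mem (N : CMod O) (L : Subgroup G) (z : N.obj L) : dlf N L z ∈ GObj N (orb L) := by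
  classical
  refine ⟨fun q K h => ?_, fun k q K => ?_⟩
  · obtain ⟨g, rfl⟩ := exists_pt q
    rw [dlf_pt, if_neg]
    rintro rfl
    rw [stabilizer_pt] at h
    exact h (O.refl _)
  · obtain ⟨g, rfl⟩ := exists_pt q
    rw [smul_pt, dlf_pt, dlf_pt]
    by_cases h : K = cj g L
    · rw [if_pos h, if_pos (by rw [h, cj_cj])]
      rw [N.res_comp _ _ _ _ _ (mor_cj k K)]
      rw [h]
      exact mor_cj g L
    · rw [if_neg h, if_neg, map_zero]
      intro h1
      rw [← cj_cj] at h1
      exact h (cj_injective k h1)

/-- the delta family -/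
noncomputable def dl (N : CMod O) (L : Subgroup G) : N.obj L →ₗ[ℚ] (GG N).obj (orb L) where
  toFun z := fam (dlf N L z) (dlf_mem N L z)
  map_add' a b := evl_ext fun q K _ => by
    classical
    obtain ⟨g, rfl⟩ := exists_pt q
    rw [map_add, evl_fam, evl_fam, evl_fam, dlf_pt, dlf_pt, dlf_pt]
    split_ifs
    · exact map_add _ _ _
    · rw [add_zero]
  map_smul' a b := evl_ext fun q K _ => by
    classical
    obtain ⟨g, rfl⟩ := exists_pt q
    rw [RingHom.id_apply, map_smul, evl_fam, evl_fam, dlf_pt, dlf_pt]
    split_ifs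
    · exact map_smul _ _ _
    · rw [smul_zero]

open scoped Classical in
lemma evl_dl {N : CMod O} (L : Subgroup G) (z : N.obj L) (g : G) (K : Subgroup G) :
    evl (pt L g) K (dl N L z) = if K = cj g L then N.res K L g z else 0 := dlf_pt N L z g K

lemma evl_dl_self {N : CMod O} (L : Subgroup G) (z : N.obj L) :
    evl (pt L 1) L (dl N L z) = z := by
  rw [evl_dl, if_pos (cj_one L).symm, N.res_one]

lemma GGmap_dl {A B : CMod O} (φ : A.Hom B) (L : Subgroup G) (z : A.obj L) :
    (GGmap φ).app (orb L) (dl A L z) = dl B L (φ.app L z) := by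
  classical
  apply evl_ext
  intro q K _
  obtain ⟨g, rfl⟩ := exists_pt q
  rw [evl_GGmap, evl_dl, evl_dl]
  by_cases h : K = cj g L
  · rw [if_pos h, if_pos h, φ.nat]
    rw [h]
    exact mor_cj g L
  · rw [if_neg h, if_neg h, map_zero]

/-- the averaging formula -/
lemma averaging {N : CMod O} {X : FinGSet G} (n : (GG N).obj X) :
    (Nat.card G) • n =
      ∑ x : X, ∑ L : Subgroup G, (Nat.card L) • (GG N).up x L (dl N L (evl x L n)) := by
  classical
  apply evl_ext
  intro y K _
  rw [map_nsmul, map_sum]
  have h1 : ∀ x : X, evl y K (∑ L : Subgroup G, (Nat.card L) • (GG N).up x L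
      (dl N L (evl x L n))) = ∑ g : G, if g • x = y then evl y K n else 0 := by
    intro x
    rw [map_sum]
    have h2 : ∀ L : Subgroup G, evl y K ((Nat.card L) • (GG N).up x L (dl N L (evl x L n))) =
        ∑ g : G, if g • x = y then (if K = cj g L then evl y K n else 0) else 0 := by
      intro L
      rw [map_nsmul]
      by_cases h : O.rel L (stabilizer G x)
      · rw [evl_up h]
        apply Finset.sum_congr rfl
        intro g _
        split_ifs with h3 h4
        · rw [evl_dl, if_pos h4, ← h3]
          subst h4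
          rw [evl_smul]
        · rw [evl_dl, if_neg h4]
        · rfl
      · rw [Mackey.up_eq_zero _ h, LinearMap.zero_apply, map_zero, smul_zero]
        symm
        apply Finset.sum_eq_zero
        intro g _
        split_ifs with h3 h4
        · apply evl_of_not_rel
          rw [← h3, h4, stabilizer_smul', rel_cj_iff]
          exact h
        · rfl
        · rfl
    rw [Finset.sum_congr rfl fun L _ => h2 L, Finset.sum_comm]
    apply Finset.sum_congr rfl
    intro g _
    by_cases h3 : g • x = y
    · simp only [if_pos h3]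
      rw [Finset.sum_eq_single (cj g⁻¹ K)]
      · rw [if_pos (cj_cj_inv g K).symm]
      · intro L _ hL
        rw [if_neg]
        rintro rfl
        exact hL (cj_inv_cj g L).symm
      · intro h1
        exact absurd (Finset.mem_univ _) h1
    · simp only [if_neg h3, Finset.sum_const_zero]
  rw [Finset.sum_congr rfl fun x _ => h1 x, Finset.sum_comm]
  have h5 : ∀ g : G, (∑ x : X, if g • x = y then evl y K n else 0) = evl y K n := by
    intro g
    rw [Finset.sum_eq_single (g⁻¹ • y)]
    · rw [if_pos (smul_inv_smul g y)]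
    · intro x _ hx
      rw [if_neg]
      rintro rfl
      exact hx (inv_smul_smul g x).symm
    · intro h1
      exact absurd (Finset.mem_univ _) h1
  rw [Finset.sum_congr rfl fun g _ => h5 g, Finset.sum_const, Finset.card_univ,
    Nat.card_eq_fintype_card]

/-! ### The counit -/

lemma Tr_le_ker (N : CMod O) (K : Subgroup G) :
    (GG N).Tr K ≤ LinearMap.ker (evl (N := N) (pt K 1) K) := by
  classical
  unfold Mackey.Tr
  rw [Submodule.span_le]
  rintro v ⟨U, f, hf, m, h0, rfl⟩
  change evl (pt K 1) K ((GG N).push f hf m) = 0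
  rw [evl_push]
  apply Finset.sum_eq_zero
  intro u _
  split_ifs with h
  · apply evl_of_not_rel
    exact fun h1 => h0 u h (O.le _ _ h1)
  · rfl

/-- the counit -/
noncomputable def eps (N : CMod O) (K : Subgroup G) : (GG N).Br K →ₗ[ℚ] N.obj K :=
  ((GG N).Tr K).liftQ (evl (pt K 1) K) (Tr_le_ker N K)

lemma eps_mk {N : CMod O} {K : Subgroup G} (n : (GG N).obj (orb K)) :
    eps N K (Submodule.Quotient.mk n) = evl (pt K 1) K n := rfl

lemma eps_val {N : CMod O} {X : FinGSet G} {x : X} {K : Subgroup G} (h : K ≤ stabilizer G x)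
    (n : (GG N).obj X) : eps N K ((GG N).val x K n) =
      N.res K (hull O K (stabilizer G x)) 1 (evl x (hull O K (stabilizer G x)) n) := by
  rw [Mackey.val_apply, eps_mk, evl_dn h]

lemma eps_val_rel {N : CMod O} {X : FinGSet G} {x : X} {K : Subgroup G}
    (h : O.rel K (stabilizer G x)) (n : (GG N).obj X) :
    eps N K ((GG N).val x K n) = evl x K n := by
  rw [eps_val (O.le _ _ h), hull_of_rel h, N.res_one]

lemma evl_eq_zero_of_card {N : CMod O} {K L : Subgroup G} (n : (GG N).obj (orb K))
    (h : evl (pt K 1) K n = 0) (q : orb K) (hL : Nat.card K ≤ Nat.card L) :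
    evl q L n = 0 := by
  by_cases h1 : O.rel L (stabilizer G q)
  · obtain ⟨g, rfl⟩ := exists_pt q
    have h2 := O.le _ _ h1
    rw [stabilizer_pt] at h2
    have h3 : L = cj g K := Dense.eq_of_card h2 (by rwa [card_cj])
    subst h3
    have h4 : pt K g = g • pt K 1 := by rw [smul_pt, mul_one]
    rw [h4, evl_smul, h, map_zero]
  · exact evl_of_not_rel n h1

lemma eps_injective (N : CMod O) (K : Subgroup G) : Injective (eps N K) := by
  rw [← LinearMap.ker_eq_bot, LinearMap.ker_eq_bot']
  intro z hz
  obtain ⟨n, rfl⟩ := Submodule.Quotient.mk_surjective _ z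
  rw [eps_mk] at hz
  rw [Submodule.Quotient.mk_eq_zero]
  have hG : (Nat.card G : ℚ) ≠ 0 := by
    exact_mod_cast Nat.card_pos.ne'
  have h1 : (Nat.card G) • n ∈ (GG N).Tr K := by
    rw [averaging]
    apply Submodule.sum_mem
    intro q _
    apply Submodule.sum_mem
    intro L _
    by_cases hL : Nat.card K ≤ Nat.card L
    · rw [evl_eq_zero_of_card n hz q hL]
      simp
    · apply Submodule.smul_of_tower_mem
      by_cases h : O.rel L (stabilizer G q)
      · rw [Mackey.up_eq _ h]
        apply Submodule.subset_span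
        refine ⟨orb L, _, ev_admissible h, _, ?_, rfl⟩
        intro u _ hu
        obtain ⟨k, rfl⟩ := exists_pt u
        rw [stabilizer_pt] at hu
        apply hL
        rw [← card_cj k L]
        exact Subgroup.card_le_of_le hu
      · rw [Mackey.up_eq_zero _ h]
        simp
  have h2 := Submodule.smul_mem _ ((Nat.card G : ℚ)⁻¹) h1
  rw [← Nat.cast_smul_eq_nsmul ℚ, smul_smul, inv_mul_cancel₀ hG, one_smul] at h2
  exact h2

lemma eps_dl {N : CMod O} (K : Subgroup G) (z : N.obj K) :
    eps N K (Submodule.Quotient.mk (dl N K z)) = z := by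
  rw [eps_mk, evl_dl_self]

lemma eps_bijective (N : CMod O) (K : Subgroup G) : Bijective (eps N K) :=
  ⟨eps_injective N K, fun z => ⟨_, eps_dl K z⟩⟩

lemma eps_nat {N : CMod O} {K H : Subgroup G} {x : G} (h : Mor O K H x)
    (n : (GG N).Br H) : eps N K ((GG N).brRes K H x n) = N.res K H x (eps N H n) := by
  obtain ⟨m, rfl⟩ := Submodule.Quotient.mk_surjective _ n
  rw [Mackey.brRes_mk _ h, eps_val (by rw [stabilizer_pt]; exact h.le), eps_mk, stabilizer_pt]
  have h2 : Dense O K (cj x H) := by
    have := Dense.cj (g := x) h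
    rwa [cj_cj_inv] at this
  rw [hull_of_dense h2]
  have h4 : pt H x = x • pt H 1 := by rw [smul_pt, mul_one]
  rw [h4, evl_smul, N.res_comp _ _ _ _ _ (mor_one.2 h2) (mor_cj x H), one_mul]

/-- the counit as a morphism -/
noncomputable def epsHom (N : CMod O) : (FF (GG N)).Hom N where
  app K := eps N K
  nat _ _ _ h n := eps_nat h n

/-! ### The unit -/

open scoped Classical in
/-- the unit -/
noncomputable def etaFun (M : Mackey O) (X : FinGSet G) (m : M.obj X) (x : X) (K : Subgroup G) :
    (FF M).obj K := if O.rel K (stabilizer G x) then M.val x K m else 0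

lemma etaFun_of_rel {M : Mackey O} {X : FinGSet G} (m : M.obj X) {x : X} {K : Subgroup G}
    (h : O.rel K (stabilizer G x)) : etaFun M X m x K = M.val x K m := if_pos h

lemma etaFun_of_not_rel {M : Mackey O} {X : FinGSet G} (m : M.obj X) {x : X} {K : Subgroup G}
    (h : ¬ O.rel K (stabilizer G x)) : etaFun M X m x K = 0 := if_neg h

lemma etaFun_mem (M : Mackey O) (X : FinGSet G) (m : M.obj X) : etaFun M X m ∈ GObj (FF M) X := by
  refine ⟨fun x K h => etaFun_of_not_rel m h, fun g x K => ?_⟩
  by_cases h : O.rel K (stabilizer G x)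
  · have h1 : O.rel (cj g K) (stabilizer G (g • x)) := by
      rw [stabilizer_smul']; exact rel_cj h
    rw [etaFun_of_rel m h1, etaFun_of_rel m h]
    exact (M.brRes_val (mor_cj g K) x (O.le _ _ h) m).symm
  · have h1 : ¬ O.rel (cj g K) (stabilizer G (g • x)) := by
      rw [stabilizer_smul', rel_cj_iff]; exact h
    rw [etaFun_of_not_rel m h1, etaFun_of_not_rel m h, map_zero]

noncomputable def etaHom (M : Mackey O) : M.Hom (GG (FF M)) where
  app X :=
    { toFun := fun m => fam (etaFun M X m) (etaFun_mem M X m)
      map_add' := fun a b => evl_ext fun x K h => by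
        rw [map_add, evl_fam, evl_fam, evl_fam, etaFun_of_rel _ h, etaFun_of_rel _ h,
          etaFun_of_rel _ h]
        exact map_add _ _ _
      map_smul' := fun a b => evl_ext fun x K h => by
        rw [RingHom.id_apply, map_smul, evl_fam, evl_fam, etaFun_of_rel _ h, etaFun_of_rel _ h]
        exact map_smul _ _ _ }
  naturality := by
    classical
    intro X U Y a f hf
    apply LinearMap.ext
    intro m
    apply evl_ext
    intro y K h
    change etaFun M Y (M.span a f hf m) y K = evl y K ((GG (FF M)).span a f hf _)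
    rw [etaFun_of_rel _ h, evl_span _ _ _ _ h]
    refine (M.val_span a f hf m y (O.le _ _ h)).trans ?_
    apply Finset.sum_congr rfl
    intro u _
    by_cases h1 : f u = y ∧ K ≤ stabilizer G u
    · rw [if_pos h1, if_pos h1]
      have hK := h1.2.trans (stab_le a u)
      have h2 : O.rel (hull O K (stabilizer G (a u))) (stabilizer G (a u)) := rel_hull hK
      change _ = M.brRes K (hull O K (stabilizer G (a u))) 1
        (etaFun M X m (a u) (hull O K (stabilizer G (a u))))
      rw [etaFun_of_rel _ h2]
      have := M.brRes_val (mor_one.2 (dense_hull hK)) (a u) (O.le _ _ h2) m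
      rw [one_smul] at this
      exact this.symm
    · rw [if_neg h1, if_neg h1]
      rfl

lemma evl_eta {M : Mackey O} {X : FinGSet G} (m : M.obj X) {x : X} {K : Subgroup G}
    (h : O.rel K (stabilizer G x)) : evl x K ((etaHom M).app X m) = M.val x K m := if_pos h

lemma eta_map {M N : Mackey O} (φ : M.Hom N) {X : FinGSet G} (m : M.obj X) :
    (GGmap (FFmap φ)).app X ((etaHom M).app X m) = (etaHom N).app X (φ.app X m) := by
  apply evl_ext
  intro x K h
  rw [evl_GGmap, evl_eta _ h, evl_eta _ h]
  exact brMap_val φ K x m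

lemma dl_mem_range (M : Mackey O) : ∀ (d : ℕ) (L : Subgroup G), Nat.card L = d →
    ∀ z : (FF M).obj L, dl (FF M) L z ∈ LinearMap.range ((etaHom M).app (orb L)) := by
  intro d
  induction d using Nat.strong_induction_on with
  | _ d ih =>
    intro L hL z
    obtain ⟨m, hm⟩ := Submodule.Quotient.mk_surjective _ z
    set n' := (etaHom M).app (orb L) m - dl (FF M) L z with hn'
    have h0 : evl (pt L 1) L n' = 0 := by
      rw [hn', map_sub, evl_dl_self, evl_eta _ (by rw [stabilizer_pt_one]; exact O.refl L)]
      rw [M.val_self]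
      exact sub_eq_zero.2 hm
    have hG : (Nat.card G : ℚ) ≠ 0 := by
      exact_mod_cast Nat.card_pos.ne'
    have h1 : (Nat.card G) • n' ∈ LinearMap.range ((etaHom M).app (orb L)) := by
      rw [averaging]
      apply Submodule.sum_mem
      intro q _
      apply Submodule.sum_mem
      intro K _
      by_cases hK : Nat.card L ≤ Nat.card K
      · rw [evl_eq_zero_of_card n' h0 q hK]
        simp
      · apply Submodule.smul_of_tower_mem
        obtain ⟨m', hm'⟩ := ih (Nat.card K) (by omega) K rfl (evl q K n')
        rw [← hm', ← (etaHom M).app_up]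
        exact ⟨_, rfl⟩
    have h2 := Submodule.smul_mem _ ((Nat.card G : ℚ)⁻¹) h1
    rw [← Nat.cast_smul_eq_nsmul ℚ, smul_smul, inv_mul_cancel₀ hG, one_smul] at h2
    have h3 : dl (FF M) L z = (etaHom M).app (orb L) m - n' := by rw [hn']; abel
    rw [h3]
    exact Submodule.sub_mem _ ⟨m, rfl⟩ h2

lemma eta_surjective (M : Mackey O) (X : FinGSet G) : Surjective ((etaHom M).app X) := by
  intro n
  have hG : (Nat.card G : ℚ) ≠ 0 := by
    exact_mod_cast Nat.card_pos.ne'
  have h1 : (Nat.card G) • n ∈ LinearMap.range ((etaHom M).app X) := by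
    rw [averaging]
    apply Submodule.sum_mem
    intro x _
    apply Submodule.sum_mem
    intro K _
    apply Submodule.smul_of_tower_mem
    obtain ⟨m', hm'⟩ := dl_mem_range M _ K rfl (evl x K n)
    rw [← hm', ← (etaHom M).app_up]
    exact ⟨_, rfl⟩
  have h2 := Submodule.smul_mem _ ((Nat.card G : ℚ)⁻¹) h1
  rw [← Nat.cast_smul_eq_nsmul ℚ, smul_smul, inv_mul_cancel₀ hG, one_smul] at h2
  exact h2

end Pool.Agent.Helper20_Mackey
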